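import Mathlib

/-!
Finitary 3-colorings of `ℤ ^ d`: the lattice, the `ℓ¹` norm, Lipschitz functions.
-/

set_option autoImplicit false

namespace Pool.Agent.H96C3

/-- the lattice `ℤ ^ d` -/
abbrev V (d : ℕ) : Type := Fin d → ℤ

/-- the `ℓ¹` norm -/
def nrm {d : ℕ} (x : V d) : ℕ := ∑ i, (x i).natAbs

variable {d : ℕ}

@[simp] theorem nrm_zero : nrm (0 : V d) = 0 := by simp [nrm]

theorem nrm_neg (x : V d) : nrm (-x) = nrm x := by simp [nrm]

theorem nrm_sub_comm (x y : V d) : nrm (x - y) = nrm (y - x) := by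
  rw [← nrm_neg, neg_sub]

theorem nrm_add_le (x y : V d) : nrm (x + y) ≤ nrm x + nrm y := by
  unfold nrm
  rw [← Finset.sum_add_distrib]
  exact Finset.sum_le_sum fun i _ => Int.natAbs_add_le _ _

theorem nrm_tri (x y z : V d) : nrm (x - z) ≤ nrm (x - y) + nrm (y - z) := by
  have := nrm_add_le (x - y) (y - z)
  rwa [sub_add_sub_cancel] at this

theorem nrm_eq_zero {x : V d} : nrm x = 0 ↔ x = 0 := by
  unfold nrm
  rw [Finset.sum_eq_zero_iff]
  constructor
  · intro h
    funext i
    exact Int.natAbs_eq_zero.1 (h i (Finset.mem_univ i))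
  · rintro rfl i _
    simp

theorem natAbs_le_nrm (x : V d) (i : Fin d) : (x i).natAbs ≤ nrm x :=
  Finset.single_le_sum (f := fun i => (x i).natAbs) (fun _ _ => Nat.zero_le _) (Finset.mem_univ i)

/-- the ball of radius `r` about `x` -/
def ball (x : V d) (r : ℕ) : Set (V d) := {y | nrm (x - y) ≤ r}

theorem mem_ball {x y : V d} {r : ℕ} : y ∈ ball x r ↔ nrm (x - y) ≤ r := Iff.rfl

theorem self_mem_ball (x : V d) (r : ℕ) : x ∈ ball x r := by simp [mem_ball]

theorem ball_mono {x : V d} {r s : ℕ} (h : r ≤ s) : ball x r ⊆ ball x s :=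
  fun _ hy => le_trans hy h

theorem ball_sub {x y : V d} {r s t : ℕ} (hy : y ∈ ball x r) (h : r + s ≤ t) :
    ball y s ⊆ ball x t := by
  intro z hz
  rw [mem_ball] at *
  have := nrm_tri x y z
  omega

/-- the box of radius `r` as a finite set -/
noncomputable def box (d r : ℕ) : Finset (V d) := Fintype.piFinset fun _ => Finset.Icc (-(r : ℤ)) r

theorem card_box (d r : ℕ) : (box d r).card = (2 * r + 1) ^ d := by
  unfold box
  rw [Fintype.card_piFinset]
  simp only [Int.card_Icc, Finset.prod_const, Finset.card_univ, Fintype.card_fin]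
  congr 1
  omega

theorem mem_box_of_nrm {x : V d} {r : ℕ} (h : nrm x ≤ r) : x ∈ box d r := by
  unfold box
  rw [Fintype.mem_piFinset]
  intro i
  rw [Finset.mem_Icc]
  have := natAbs_le_nrm x i
  omega

/-- Lipschitz functions -/
def Lip (f : V d → ℝ) (η : ℝ) : Prop := ∀ x y, nrm (x - y) = 1 → |f x - f y| ≤ η

/-- a neighbour in the direction of `0` -/
theorem exists_step (x : V d) (n : ℕ) (h : nrm x = n + 1) :
    ∃ u : V d, nrm u = 1 ∧ nrm (x - u) = n := by
  have h1 : ∃ i, x i ≠ 0 := by
    by_contra hc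
    push Not at hc
    have : x = 0 := funext hc
    rw [this, nrm_zero] at h
    omega
  obtain ⟨i, hi⟩ := h1
  refine ⟨Pi.single i (Int.sign (x i)), ?_, ?_⟩
  · unfold nrm
    rw [Finset.sum_eq_single i]
    · rw [Pi.single_eq_same, Int.natAbs_sign, if_neg hi]
    · intro j _ hj
      rw [Pi.single_eq_of_ne hj]; rfl
    · simp
  · unfold nrm at *
    rw [← Finset.add_sum_erase _ _ (Finset.mem_univ i)] at h ⊢
    have h2 : ∀ j ∈ Finset.univ.erase i, ((x - Pi.single i (Int.sign (x i)) : V d) j).natAbs =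
        (x j).natAbs := by
      intro j hj
      rw [Pi.sub_apply, Pi.single_eq_of_ne (Finset.ne_of_mem_erase hj), sub_zero]
    rw [Finset.sum_congr rfl h2, Pi.sub_apply, Pi.single_eq_same]
    have h3 : (x i - Int.sign (x i)).natAbs + 1 = (x i).natAbs := by
      rcases lt_trichotomy (x i) 0 with h | h | h
      · rw [Int.sign_eq_neg_one_of_neg h]; omega
      · exact absurd h hi
      · rw [Int.sign_eq_one_of_pos h]; omega
    omega

theorem Lip.dist {f : V d → ℝ} {η : ℝ} (h : Lip f η) (x y : V d) :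
    |f x - f y| ≤ η * nrm (x - y) := by
  obtain ⟨n, hn⟩ : ∃ n, nrm (x - y) = n := ⟨_, rfl⟩
  induction n generalizing x with
  | zero =>
    have : x = y := by
      have := nrm_eq_zero.1 hn
      exact sub_eq_zero.1 this
    subst this
    simp
  | succ n ih =>
    obtain ⟨u, hu, hu2⟩ := exists_step (x - y) n hn
    have h1 : x - y - u = (x - u) - y := by abel
    rw [h1] at hu2
    have h2 := ih (x - u) hu2
    have h3 : nrm (x - (x - u)) = 1 := by rw [sub_sub_cancel]; exact hu
    have h4 := h x (x - u) h3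
    have h5 : |f x - f y| ≤ |f x - f (x - u)| + |f (x - u) - f y| := abs_sub_le _ _ _
    rw [hn]
    rw [hu2] at h2
    push_cast
    linarith

theorem Lip.const (c η : ℝ) (hη : 0 ≤ η) : Lip (fun _ : V d => c) η := by
  intro x y _
  simpa using hη

end Pool.Agent.H96C3
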