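import Pool.Agent.H96C3.Basic

/-!
Factors of i.i.d. 3-colorings of `ℤ ^ d` and their coding radius.
-/

set_option autoImplicit false

open MeasureTheory ProbabilityTheory
open scoped ENNReal

namespace Pool.Agent.H96C3

variable {d : ℕ} {S : Type*}

/-- the translation of a configuration by the vector `b` -/
def shift {α : Type*} (b : V d) (ω : V d → α) : V d → α := fun v => ω (v + b)

/-- the law of a family of independent labels with the law `μ`, indexed by `ℤ ^ d` -/
noncomputable def law [MeasurableSpace S] (d : ℕ) (μ : Measure S) [IsProbabilityMeasure μ] :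
    Measure (V d → S) := Measure.infinitePi fun _ => μ

/-- The coding radius at the origin: the least `n` such that the color of the origin is the same for
all the configurations of labels which agree with `ω` on the ball of radius `n` (in the `ℓ¹` norm),
and `⊤` if there is no such `n`. -/
noncomputable def radius (Φ : (V d → S) → V d → Fin 3) (ω : V d → S) : ℕ∞ :=
  sInf {r : ℕ∞ | ∃ n : ℕ, r = n ∧ ∀ ω' : V d → S, (∀ v, nrm v ≤ n → ω' v = ω v) → Φ ω' 0 = Φ ω 0}

/-- `Φ` is a finitary factor of i.i.d. proper 3-coloring of `ℤ ^ d`, for labels with the law `μ`. -/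
structure IsFFIID [MeasurableSpace S] (μ : Measure S) [IsProbabilityMeasure μ]
    (Φ : (V d → S) → V d → Fin 3) : Prop where
  /-- it is measurable -/
  meas : Measurable Φ
  /-- it commutes with the translations -/
  equi : ∀ (b : V d) (ω : V d → S), Φ (shift b ω) = shift b (Φ ω)
  /-- the coding radius is finite -/
  fin : ∀ᵐ ω ∂(law d μ), radius Φ ω ≠ ⊤
  /-- adjacent vertices have different colors -/
  proper : ∀ᵐ ω ∂(law d μ), ∀ u v : V d, nrm (u - v) = 1 → Φ ω u ≠ Φ ω v

/-- `Φ` is a measurable map which commutes with every translation outside a null set, and whose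
values are almost surely proper 3-colorings; nothing is assumed on the coding radius. -/
structure IsWeakFactor [MeasurableSpace S] (μ : Measure S) [IsProbabilityMeasure μ]
    (Φ : (V d → S) → V d → Fin 3) : Prop where
  /-- it is measurable -/
  meas : Measurable Φ
  /-- it commutes with the translations outside null sets -/
  equi : ∀ b : V d, ∀ᵐ ω ∂(law d μ), Φ (shift b ω) = shift b (Φ ω)
  /-- adjacent vertices have different colors -/
  proper : ∀ᵐ ω ∂(law d μ), ∀ u v : V d, nrm (u - v) = 1 → Φ ω u ≠ Φ ω v

theorem IsFFIID.weak [MeasurableSpace S] {μ : Measure S} [IsProbabilityMeasure μ]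
    {Φ : (V d → S) → V d → Fin 3} (h : IsFFIID μ Φ) : IsWeakFactor μ Φ :=
  ⟨h.meas, fun b => Filter.Eventually.of_forall (h.equi b), h.proper⟩

/-- The coding radius has a finite moment of order `α` (in terms of a measurable upper bound, in
order to avoid any assumption of measurability of the coding radius). -/
def HasMoment [MeasurableSpace S] (μ : Measure S) [IsProbabilityMeasure μ]
    (Φ : (V d → S) → V d → Fin 3) (α : ℝ) : Prop :=
  ∃ g : (V d → S) → ℝ≥0∞, Measurable g ∧ (∀ᵐ ω ∂(law d μ), (radius Φ ω : ℝ≥0∞) ≤ g ω) ∧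
    ∫⁻ ω, g ω ^ α ∂(law d μ) < ⊤

instance [MeasurableSpace S] (μ : Measure S) [IsProbabilityMeasure μ] :
    IsProbabilityMeasure (law d μ) := by unfold law; infer_instance

theorem radius_le {Φ : (V d → S) → V d → Fin 3} {ω : V d → S} {n : ℕ}
    (h : ∀ ω' : V d → S, (∀ v, nrm v ≤ n → ω' v = ω v) → Φ ω' 0 = Φ ω 0) :
    radius Φ ω ≤ n := by
  apply sInf_le
  exact ⟨n, rfl, h⟩

theorem radius_spec {Φ : (V d → S) → V d → Fin 3} {ω : V d → S} {n : ℕ}
    (h : radius Φ ω ≤ n) (ω' : V d → S) (h' : ∀ v, nrm v ≤ n → ω' v = ω v) :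
    Φ ω' 0 = Φ ω 0 := by
  unfold radius at h
  set T := {r : ℕ∞ | ∃ n : ℕ, r = n ∧ ∀ ω' : V d → S, (∀ v, nrm v ≤ n → ω' v = ω v) →
    Φ ω' 0 = Φ ω 0} with hT
  have hne : T.Nonempty := by
    by_contra hc
    rw [Set.not_nonempty_iff_eq_empty] at hc
    rw [hc, sInf_empty] at h
    exact absurd h (by simp)
  obtain ⟨m, hm, hm'⟩ := csInf_mem hne
  have : m ≤ n := by
    rw [hm] at h
    exact_mod_cast h
  exact hm' ω' fun v hv => h' v (hv.trans this)

/-! ### Translations, mixtures and independence -/

variable [MeasurableSpace S]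

theorem shift_meas (b : V d) : Measurable (shift (α := S) b) :=
  measurable_pi_lambda _ fun v => measurable_pi_apply (v + b)

theorem shift_law (μ : Measure S) [IsProbabilityMeasure μ] (b : V d) :
    MeasurePreserving (shift b) (law d μ) (law d μ) := by
  refine ⟨shift_meas b, ?_⟩
  exact Measure.map_infinitePi_infinitePi_of_inj (P := fun _ : V d => μ)
    (f := fun v : V d => v + b) (add_left_injective b)

open Classical in
/-- `ω` on `A` and `ω'` outside `A` -/
noncomputable def mix (A : Set (V d)) (p : (V d → S) × (V d → S)) : V d → S :=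
  fun v => if v ∈ A then p.1 v else p.2 v

theorem mix_mem {A : Set (V d)} (p : (V d → S) × (V d → S)) {v : V d} (h : v ∈ A) :
    mix A p v = p.1 v := if_pos h

theorem mix_notMem {A : Set (V d)} (p : (V d → S) × (V d → S)) {v : V d} (h : v ∉ A) :
    mix A p v = p.2 v := if_neg h

theorem mix_meas (A : Set (V d)) : Measurable (mix (S := S) A) := by
  classical
  refine measurable_pi_lambda _ fun v => ?_
  by_cases h : v ∈ A
  · have : (fun p : (V d → S) × (V d → S) => mix A p v) = fun p => p.1 v := by
      funext p; exact mix_mem p h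
    rw [this]
    fun_prop
  · have : (fun p : (V d → S) × (V d → S) => mix A p v) = fun p => p.2 v := by
      funext p; exact mix_notMem p h
    rw [this]
    fun_prop

theorem mix_law (μ : Measure S) [IsProbabilityMeasure μ] (A : Set (V d)) :
    MeasurePreserving (mix A) ((law d μ).prod (law d μ)) (law d μ) := by
  classical
  refine ⟨mix_meas A, ?_⟩
  unfold law
  apply Measure.eq_infinitePi
  intro s t ht
  rw [Measure.map_apply (mix_meas A) (MeasurableSet.pi (Finset.countable_toSet _) fun i _ => ht i)]
  have h1 : mix A ⁻¹' (Set.pi (s : Set (V d)) t) =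
      (Set.pi ((s.filter (· ∈ A) : Finset (V d)) : Set (V d)) t) ×ˢ
        (Set.pi ((s.filter (· ∉ A) : Finset (V d)) : Set (V d)) t) := by
    ext p
    simp only [Set.mem_preimage, Set.mem_pi, Finset.mem_coe, Set.mem_prod, Finset.mem_filter]
    constructor
    · intro h
      refine ⟨fun v hv => ?_, fun v hv => ?_⟩
      · have := h v hv.1
        rwa [mix_mem p hv.2] at this
      · have := h v hv.1
        rwa [mix_notMem p hv.2] at this
    · rintro ⟨h1, h2⟩ v hv
      by_cases hA : v ∈ A
      · rw [mix_mem p hA]; exact h1 v ⟨hv, hA⟩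
      · rw [mix_notMem p hA]; exact h2 v ⟨hv, hA⟩
  rw [h1, Measure.prod_prod, Measure.infinitePi_pi _ fun i _ => ht i,
    Measure.infinitePi_pi _ fun i _ => ht i]
  exact Finset.prod_filter_mul_prod_filter_not s _ _

/-- functions of disjoint sets of labels are independent -/
theorem indep_of_disjoint (μ : Measure S) [IsProbabilityMeasure μ] {α β : Type*}
    [MeasurableSpace α] [MeasurableSpace β] {f : (V d → S) → α} {g : (V d → S) → β}
    {A B : Set (V d)} (hf : DependsOn f A) (hg : DependsOn g B) (hAB : Disjoint A B)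
    (hfm : Measurable f) (hgm : Measurable g) : IndepFun f g (law d μ) := by
  rw [indepFun_iff_measure_inter_preimage_eq_mul]
  intro s t hs ht
  have h1 := (mix_law μ A).measure_preimage
    ((hfm hs).inter (hgm ht)).nullMeasurableSet
  rw [← h1]
  have h2 : mix A ⁻¹' (f ⁻¹' s ∩ g ⁻¹' t) = (f ⁻¹' s) ×ˢ (g ⁻¹' t) := by
    ext p
    have e1 : f (mix A p) = f p.1 := hf fun v hv => mix_mem p hv
    have e2 : g (mix A p) = g p.2 := hg fun v hv =>
      mix_notMem p fun hA => (Set.disjoint_left.1 hAB hA) hv
    simp only [Set.mem_preimage, Set.mem_inter_iff, Set.mem_prod, e1, e2]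
  rw [h2, Measure.prod_prod]

/-- an event of small probability has small probability after freezing the labels outside `A` -/
theorem exists_freeze (μ : Measure S) [IsProbabilityMeasure μ] (A : Set (V d))
    {E : Set (V d → S)} (hE : MeasurableSet E) :
    ∃ ω' : V d → S, law d μ {ω | mix A (ω, ω') ∈ E} ≤ law d μ E := by
  have h1 := (mix_law μ A).measure_preimage hE.nullMeasurableSet
  have hm : MeasurableSet (mix A ⁻¹' E) := mix_meas A hE
  rw [Measure.prod_apply_symm hm] at h1
  have hmeas : Measurable fun y => law d μ ((fun x => (x, y)) ⁻¹' (mix A ⁻¹' E)) :=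
    measurable_measure_prodMk_right hm
  obtain ⟨ω', hω'⟩ := exists_le_lintegral (μ := law d μ) hmeas.aemeasurable
  exact ⟨ω', hω'.trans h1.le⟩

/-- if two functions of disjoint sets of labels are nearly always equal they are nearly constant -/
theorem exists_const (μ : Measure S) [IsProbabilityMeasure μ] {α : Type*}
    [MeasurableSpace α] [MeasurableSingletonClass α] [Countable α] {f g : (V d → S) → α}
    {A B : Set (V d)} (hf : DependsOn f A) (hg : DependsOn g B) (hAB : Disjoint A B)
    (hfm : Measurable f) (hgm : Measurable g) :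
    ∃ k, law d μ {ω | f ω ≠ k} ≤ law d μ {ω | f ω ≠ g ω} := by
  have hE : MeasurableSet {ω | f ω ≠ g ω} := (measurableSet_eq_fun hfm hgm).compl
  obtain ⟨ω', hω'⟩ := exists_freeze μ A hE
  refine ⟨g ω', ?_⟩
  refine le_trans (measure_mono ?_) hω'
  intro ω hω
  have e1 : f (mix A (ω, ω')) = f ω := hf fun v hv => mix_mem _ hv
  have e2 : g (mix A (ω, ω')) = g ω' := hg fun v hv =>
    mix_notMem _ fun hA => (Set.disjoint_left.1 hAB hA) hv
  simp only [Set.mem_ofPred_eq, e1, e2]
  exact hω

end Pool.Agent.H96C3
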