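import Pool.Agent.H96C3.Hs

/-!
Exceptional probabilities.
-/

set_option autoImplicit false

open MeasureTheory ProbabilityTheory
open scoped ENNReal

namespace Pool.Agent.H96C3

variable {d : ℕ} {S : Type*} [MeasurableSpace S] (μ : Measure S) [IsProbabilityMeasure μ]

/-- the probability that `p` fails -/
noncomputable def ex (p : (V d → S) → Prop) : ℝ := (law d μ).real {ω | ¬ p ω}

theorem ex_nonneg (p : (V d → S) → Prop) : 0 ≤ ex μ p := measureReal_nonneg

theorem ex_of {p q : (V d → S) → Prop} (h : ∀ ω, p ω → q ω) : ex μ q ≤ ex μ p :=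
  measureReal_mono fun ω hq hp => hq (h ω hp)

theorem ex_two {p q t : (V d → S) → Prop} (h : ∀ ω, p ω → q ω → t ω) :
    ex μ t ≤ ex μ p + ex μ q := by
  unfold ex
  refine le_trans (measureReal_mono (s₂ := {ω | ¬ p ω} ∪ {ω | ¬ q ω}) ?_)
    (measureReal_union_le _ _)
  intro ω hω
  by_contra hc
  have h1 : p ω := by
    by_contra h'
    exact hc (Or.inl h')
  have h2 : q ω := by
    by_contra h'
    exact hc (Or.inr h')
  exact hω (h ω h1 h2)

theorem ex_shift {p : (V d → S) → Prop} (hp : MeasurableSet {ω | p ω}) (b : V d) :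
    ex μ (fun ω => p (shift b ω)) = ex μ p := by
  unfold ex
  have h := (shift_law μ b).measure_preimage hp.compl.nullMeasurableSet
  unfold Measure.real
  congr 1

theorem ex_false {p : (V d → S) → Prop} (h : ∀ ω, ¬ p ω) : 1 ≤ ex μ p := by
  unfold ex
  have : {ω | ¬ p ω} = Set.univ := Set.eq_univ_of_forall h
  rw [this]
  simp

theorem ex_ae {p : (V d → S) → Prop} (h : ∀ᵐ ω ∂(law d μ), p ω) : ex μ p = 0 := by
  unfold ex Measure.real
  have : law d μ {ω | ¬ p ω} = 0 := h
  rw [this]; rfl

theorem ex_const {α : Type*} [MeasurableSpace α] [MeasurableSingletonClass α] [Countable α]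
    {f g : (V d → S) → α} {A B : Set (V d)} (hf : DependsOn f A) (hg : DependsOn g B)
    (hAB : Disjoint A B) (hfm : Measurable f) (hgm : Measurable g) :
    ∃ k, ex μ (fun ω => f ω = k) ≤ ex μ (fun ω => f ω = g ω) := by
  obtain ⟨k, hk⟩ := exists_const μ hf hg hAB hfm hgm
  refine ⟨k, ?_⟩
  unfold ex Measure.real
  exact ENNReal.toReal_mono (measure_ne_top _ _) hk

/-- exchangeability of two independent copies -/
theorem ex_swap {f : (V d → S) → ℤ} {A B : Set (V d)} {b : V d} (hf : DependsOn f A)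
    (hg : DependsOn (fun ω => f (shift b ω)) B) (hAB : Disjoint A B) (hfm : Measurable f)
    (R : ℤ → ℤ → Prop) :
    ex μ (fun ω => R (f ω) (f (shift b ω))) = ex μ (fun ω => R (f (shift b ω)) (f ω)) := by
  have hgm : Measurable fun ω => f (shift b ω) := hfm.comp (shift_meas b)
  have hind := indep_of_disjoint μ hf hg hAB hfm hgm
  have h1 := (indepFun_iff_map_prod_eq_prod_map_map hfm.aemeasurable hgm.aemeasurable).1 hind
  have h2 : (law d μ).map (fun ω => f (shift b ω)) = (law d μ).map f := by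
    have : (fun ω => f (shift b ω)) = f ∘ shift b := rfl
    rw [this, ← Measure.map_map hfm (shift_meas b), (shift_law μ b).map_eq]
  rw [h2] at h1
  set ν := (law d μ).map f
  haveI : IsProbabilityMeasure ν := Measure.isProbabilityMeasure_map hfm.aemeasurable
  have hR : MeasurableSet {p : ℤ × ℤ | ¬ R p.1 p.2} := .of_discrete
  have hR' : MeasurableSet {p : ℤ × ℤ | ¬ R p.2 p.1} := .of_discrete
  have e1 : law d μ {ω | ¬ R (f ω) (f (shift b ω))} = (ν.prod ν) {p | ¬ R p.1 p.2} := by
    rw [← h1, Measure.map_apply (hfm.prodMk hgm) hR]; rfl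
  have e2 : law d μ {ω | ¬ R (f (shift b ω)) (f ω)} = (ν.prod ν) {p | ¬ R p.2 p.1} := by
    rw [← h1, Measure.map_apply (hfm.prodMk hgm) hR']; rfl
  have e3 : (ν.prod ν) {p | ¬ R p.2 p.1} = (ν.prod ν) {p | ¬ R p.1 p.2} := by
    conv_rhs => rw [← Measure.prod_swap]
    rw [Measure.map_apply measurable_swap hR]; rfl
  unfold ex Measure.real
  rw [e1, e2, e3]

end Pool.Agent.H96C3
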