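import Pool.Agent.H96C3.Run

/-!
Capped geometric variables and the probability that a vertex is deep inside a cluster.
-/

set_option autoImplicit false

open MeasureTheory ProbabilityTheory
open scoped ENNReal

namespace Pool.Agent.H96C3

variable {d : ℕ}

/-- a measure on `ℕ` with the tails of a geometric variable capped at `D` -/
structure IsGeo (ν : Measure ℕ) (lam : ℝ≥0∞) (D : ℕ) : Prop where
  tail : ∀ m, m ≤ D → ν {n | m ≤ n} = lam ^ m
  cap : ν {n | D < n} = 0

theorem IsGeo.tail_ge {ν : Measure ℕ} {lam : ℝ≥0∞} {D : ℕ} (h : IsGeo ν lam D)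
    (hl : lam ≤ 1) (m g : ℕ) : lam ^ g * ν {n | m ≤ n} ≤ ν {n | m + g ≤ n} + lam ^ D := by
  by_cases h1 : m + g ≤ D
  · rw [h.tail m (by omega), h.tail (m + g) h1, pow_add, mul_comm]
    exact le_self_add
  · have h2 : lam ^ g * ν {n | m ≤ n} ≤ lam ^ D := by
      by_cases h3 : m ≤ D
      · rw [h.tail m h3, ← pow_add]
        exact pow_le_pow_right_of_le_one' hl (by omega)
      · have : ν {n | m ≤ n} = 0 := by
          apply measure_mono_null _ h.cap
          intro n hn
          simp only [Set.mem_setOf_eq] at hn ⊢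
          omega
        rw [this, mul_zero]
        exact zero_le
    exact h2.trans le_add_self

/-- the comparison for upward closed sets -/
theorem IsGeo.upper {ν : Measure ℕ} {lam : ℝ≥0∞} {D : ℕ} (h : IsGeo ν lam D)
    (hl : lam ≤ 1) (g : ℕ) {S T : Set ℕ} (hT : ∀ n n', n ∈ T → n ≤ n' → n' ∈ T)
    (hST : ∀ n ∈ S, n + g ∈ T) : lam ^ g * ν S ≤ ν T + lam ^ D := by
  classical
  by_cases hS : ∃ n, n ∈ S
  · have h1 := Nat.find_spec hS
    have h2 : S ⊆ {n | Nat.find hS ≤ n} := fun n hn => Nat.find_min' hS hn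
    have h3 : {n | Nat.find hS + g ≤ n} ⊆ T := fun n hn => hT _ _ (hST _ h1) hn
    calc lam ^ g * ν S ≤ lam ^ g * ν {n | Nat.find hS ≤ n} := by gcongr
      _ ≤ ν {n | Nat.find hS + g ≤ n} + lam ^ D := h.tail_ge hl _ _
      _ ≤ ν T + lam ^ D := by gcongr
  · have : S = ∅ := by
      ext n
      simp only [Set.mem_empty_iff_false, iff_false]
      exact fun hn => hS ⟨n, hn⟩
    rw [this, measure_empty, mul_zero]
    exact zero_le

/-- the event that `v` wins at `0` with margin `g` among the vertices of `A` -/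
def Ev {Ω : Type*} (δ : V d → Ω → ℕ) (A : Finset (V d)) (g : ℕ) (v : V d) : Set Ω :=
  {ω | ∀ w ∈ A.erase v, (δ w ω : ℤ) - nrm w + g ≤ (δ v ω : ℤ) - nrm v}

theorem ev_meas {Ω : Type*} [MeasurableSpace Ω] {δ : V d → Ω → ℕ} (hm : ∀ v, Measurable (δ v))
    (A : Finset (V d)) (g : ℕ) (v : V d) : MeasurableSet (Ev δ A g v) := by
  have : Ev δ A g v = ⋂ w ∈ A.erase v, {ω | (δ w ω : ℤ) - nrm w + g ≤ (δ v ω : ℤ) - nrm v} := by
    ext ω
    simp only [Ev, Set.mem_setOf_eq, Set.mem_iInter]
  rw [this]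
  apply Finset.measurableSet_biInter
  intro w _
  have h1 : Measurable fun ω => ((δ w ω, δ v ω) : ℕ × ℕ) := (hm w).prodMk (hm v)
  exact h1 (MeasurableSet.of_discrete (s := {p : ℕ × ℕ | (p.1 : ℤ) - nrm w + g ≤ (p.2 : ℤ) - nrm v}))

theorem ev_prob {Ω : Type*} [MeasurableSpace Ω] {P : Measure Ω} [IsProbabilityMeasure P]
    {δ : V d → Ω → ℕ} (hm : ∀ v, Measurable (δ v)) (hi : iIndepFun δ P) {lam : ℝ≥0∞} {D : ℕ}
    (hl : lam ≤ 1) (hgeo : ∀ v, IsGeo (P.map (δ v)) lam D) (A : Finset (V d)) (g : ℕ) (v : V d) :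
    lam ^ g * P (Ev δ A 0 v) ≤ P (Ev δ A g v) + lam ^ D := by
  classical
  -- the other labels
  set B := A.erase v with hB
  let Y : Ω → (B → ℕ) := fun ω w => δ w ω
  have hY : Measurable Y := measurable_pi_lambda _ fun w => hm w
  have hind : IndepFun Y (δ v) P := by
    have h1 := hi.indepFun_finset B {v} (by
      rw [Finset.disjoint_singleton_right]
      exact Finset.notMem_erase v A) hm
    have h2 : δ v = (fun f : (({v} : Finset (V d)) → ℕ) => f ⟨v, Finset.mem_singleton_self v⟩) ∘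
        (fun a (i : ({v} : Finset (V d))) => δ i a) := rfl
    rw [h2]
    exact h1.comp measurable_id (measurable_pi_apply _)
  have hlaw := (indepFun_iff_map_prod_eq_prod_map_map hY.aemeasurable (hm v).aemeasurable).1 hind
  let S : ℕ → Set ((B → ℕ) × ℕ) := fun g =>
    {p | ∀ w : B, (p.1 w : ℤ) - nrm (w : V d) + g ≤ (p.2 : ℤ) - nrm v}
  have hS : ∀ g, MeasurableSet (S g) := fun g => MeasurableSet.of_discrete
  have hEv : ∀ g : ℕ, P (Ev δ A g v) = ∫⁻ y, (P.map (δ v)) (Prod.mk y ⁻¹' S g) ∂(P.map Y) := by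
    intro g
    rw [← Measure.prod_apply (hS g), ← hlaw, Measure.map_apply (hY.prodMk (hm v)) (hS g)]
    congr 1
    ext ω
    simp only [Ev, S, Y, Set.mem_setOf_eq, Set.mem_preimage, Subtype.forall]
    rfl
  have hprob : IsProbabilityMeasure (P.map Y) := Measure.isProbabilityMeasure_map hY.aemeasurable
  rw [hEv 0, hEv g, ← lintegral_const_mul' _ _ (ne_top_of_le_ne_top ENNReal.one_ne_top
    (pow_le_one' hl _))]
  have hconst : lam ^ D = ∫⁻ _y, lam ^ D ∂(P.map Y) := by
    rw [lintegral_const, measure_univ, mul_one]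
  rw [hconst, ← lintegral_add_right _ measurable_const]
  apply lintegral_mono
  intro y
  apply (hgeo v).upper hl g
  · intro n n' hn hnn' w
    have := hn w
    simp only at this ⊢
    have : (n : ℤ) ≤ n' := by exact_mod_cast hnn'
    have h3 := hn w
    simp only at h3
    omega
  · intro n hn w
    have := hn w
    simp only at this ⊢
    push_cast at this ⊢
    omega

/-- the probability that nobody wins with margin `g` at `0` -/
theorem win_prob {Ω : Type*} [MeasurableSpace Ω] {P : Measure Ω} [IsProbabilityMeasure P]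
    {δ : V d → Ω → ℕ} (hm : ∀ v, Measurable (δ v)) (hi : iIndepFun δ P) {lam : ℝ≥0∞} {D : ℕ}
    (hD : ∀ v ω, δ v ω ≤ D)
    (hl : lam ≤ 1) (hgeo : ∀ v, IsGeo (P.map (δ v)) lam D) (g : ℕ) (hg : 1 ≤ g) :
    lam ^ g ≤ P {ω | ∃ v, Win (fun v => δ v ω) g 0 v} + (2 * (D + g) + 1 : ℕ) ^ d * lam ^ D := by
  classical
  set A := box d (D + g) with hA
  have h0A : (0 : V d) ∈ A := mem_box_of_nrm (by simp)
  have hsub : (⋃ v ∈ A, Ev δ A g v) ⊆ {ω | ∃ v, Win (fun v => δ v ω) g 0 v} := by
    intro ω hω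
    simp only [Set.mem_iUnion] at hω
    obtain ⟨v, hv, hE⟩ := hω
    refine ⟨v, ?_⟩
    have h0 : (0 : ℤ) ≤ (δ v ω : ℤ) - nrm v := by
      by_cases h : v = 0
      · subst h; simp
      · have := hE 0 (Finset.mem_erase.2 ⟨Ne.symm h, h0A⟩)
        rw [nrm_zero] at this
        push_cast at this
        omega
    intro w hw
    rw [zero_sub, nrm_neg, zero_sub, nrm_neg]
    by_cases hwA : w ∈ A
    · exact hE w (Finset.mem_erase.2 ⟨hw, hwA⟩)
    · have h1 : D + g < nrm w := by
        by_contra hc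
        exact hwA (mem_box_of_nrm (by omega))
      have h2 := hD w ω
      simp only
      omega
  have hdisj : Set.PairwiseDisjoint (A : Set (V d)) (Ev δ A g) := by
    intro v hv w hw hne
    rw [Function.onFun, Set.disjoint_left]
    intro ω h1 h2
    have a1 := h1 w (Finset.mem_erase.2 ⟨Ne.symm hne, hw⟩)
    have a2 := h2 v (Finset.mem_erase.2 ⟨hne, hv⟩)
    omega
  have hunion : P (⋃ v ∈ A, Ev δ A g v) = ∑ v ∈ A, P (Ev δ A g v) :=
    measure_biUnion_finset hdisj fun v _ => ev_meas hm A g v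
  have hone : 1 ≤ ∑ v ∈ A, P (Ev δ A 0 v) := by
    have : (Set.univ : Set Ω) ⊆ ⋃ v ∈ A, Ev δ A 0 v := by
      intro ω _
      obtain ⟨v, hv, hmax⟩ := A.exists_max_image (fun v => (δ v ω : ℤ) - nrm v) ⟨0, h0A⟩
      simp only [Set.mem_iUnion]
      refine ⟨v, hv, fun w hw => ?_⟩
      have := hmax w (Finset.mem_of_mem_erase hw)
      push_cast
      omega
    calc (1 : ℝ≥0∞) = P Set.univ := measure_univ.symm
      _ ≤ P (⋃ v ∈ A, Ev δ A 0 v) := measure_mono this
      _ ≤ _ := measure_biUnion_finset_le _ _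
  calc lam ^ g = lam ^ g * 1 := (mul_one _).symm
    _ ≤ lam ^ g * ∑ v ∈ A, P (Ev δ A 0 v) := by gcongr
    _ = ∑ v ∈ A, lam ^ g * P (Ev δ A 0 v) := Finset.mul_sum _ _ _
    _ ≤ ∑ v ∈ A, (P (Ev δ A g v) + lam ^ D) :=
        Finset.sum_le_sum fun v _ => ev_prob hm hi hl hgeo A g v
    _ = P (⋃ v ∈ A, Ev δ A g v) + (A.card : ℝ≥0∞) * lam ^ D := by
        rw [Finset.sum_add_distrib, Finset.sum_const, nsmul_eq_mul, hunion]
    _ ≤ _ := by
        rw [hA, card_box]
        push_cast
        gcongr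

/-- the capped geometric variable as a function of a uniform variable -/
noncomputable def geo (lam : ℝ) (D : ℕ) (u : unitInterval) : ℕ := by
  classical
  exact Nat.findGreatest (fun m => (u : ℝ) < lam ^ m) D

theorem geo_le (lam : ℝ) (D : ℕ) (u : unitInterval) : geo lam D u ≤ D := by
  classical
  unfold geo
  exact Nat.findGreatest_le _

theorem le_geo {lam : ℝ} (h0 : 0 < lam) (h1 : lam < 1) {D m : ℕ} (hm : 1 ≤ m) (hmD : m ≤ D)
    (u : unitInterval) : m ≤ geo lam D u ↔ (u : ℝ) < lam ^ m := by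
  classical
  unfold geo
  constructor
  · intro h
    have h2 : 0 < Nat.findGreatest (fun m => (u : ℝ) < lam ^ m) D := by omega
    have h3 := Nat.findGreatest_of_ne_zero rfl h2.ne'
    exact lt_of_lt_of_le h3 (pow_le_pow_of_le_one h0.le h1.le h)
  · intro h
    exact Nat.le_findGreatest hmD h

theorem geo_meas {lam : ℝ} (h0 : 0 < lam) (h1 : lam < 1) (D : ℕ) : Measurable (geo lam D) := by
  apply measurable_of_Ici
  intro m
  rcases Nat.eq_zero_or_pos m with rfl | hm
  · have : geo lam D ⁻¹' Set.Ici 0 = Set.univ := by ext; simp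
    rw [this]; exact MeasurableSet.univ
  · by_cases hmD : m ≤ D
    · have : geo lam D ⁻¹' Set.Ici m = {u : unitInterval | (u : ℝ) < lam ^ m} := by
        ext u
        exact le_geo h0 h1 hm hmD u
      rw [this]
      exact measurableSet_lt measurable_subtype_coe measurable_const
    · have : geo lam D ⁻¹' Set.Ici m = ∅ := by
        ext u
        simp only [Set.mem_preimage, Set.mem_Ici, Set.mem_empty_iff_false, iff_false]
        have := geo_le lam D u
        omega
      rw [this]; exact MeasurableSet.empty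

theorem geo_isGeo {lam : ℝ} (h0 : 0 < lam) (h1 : lam < 1) (D : ℕ) :
    IsGeo ((volume : Measure unitInterval).map (geo lam D)) (ENNReal.ofReal lam) D := by
  constructor
  · intro m hm
    rw [Measure.map_apply (geo_meas h0 h1 D) MeasurableSet.of_discrete]
    rcases Nat.eq_zero_or_pos m with rfl | hm0
    · simp
    · have : geo lam D ⁻¹' {n | m ≤ n} = Set.Iio (⟨lam ^ m, by positivity,
          pow_le_one₀ h0.le h1.le⟩ : unitInterval) := by
        ext u
        simp only [Set.mem_preimage, Set.mem_setOf_eq, Set.mem_Iio]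
        rw [le_geo h0 h1 hm0 hm]
        exact Iff.rfl
      rw [this, unitInterval.volume_Iio, ENNReal.ofReal_pow h0.le]
  · rw [Measure.map_apply (geo_meas h0 h1 D) MeasurableSet.of_discrete]
    have : geo lam D ⁻¹' {n | D < n} = ∅ := by
      ext u
      simp only [Set.mem_preimage, Set.mem_setOf_eq, Set.mem_empty_iff_false, iff_false]
      have := geo_le lam D u
      omega
    rw [this, measure_empty]

end Pool.Agent.H96C3
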