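import Pool.Agent.H96C3.Defs

/-!
Height differences of 3-colorings.
-/

set_option autoImplicit false

open MeasureTheory ProbabilityTheory
open scoped ENNReal

namespace Pool.Agent.H96C3

variable {d : ℕ}

/-- the step from the color `a` to the color `b` -/
def st (a b : Fin 3) : ℤ := if b = a then 0 else if b = a + 1 then 1 else -1

theorem st_square : ∀ a b c e : Fin 3, a ≠ b → b ≠ c → a ≠ e → e ≠ c →
    st a b + st b c = st a e + st e c := by decide

theorem st_le : ∀ a b : Fin 3, st a b ≤ 1 := by decide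
theorem st_ge : ∀ a b : Fin 3, -1 ≤ st a b := by decide
theorem st_odd : ∀ a b : Fin 3, a ≠ b → st a b % 2 = 1 := by decide
theorem st_one : ∀ a b : Fin 3, st a b = 1 → b = a + 1 := by decide
theorem st_neg_one : ∀ a b : Fin 3, st a b = -1 → b = a - 1 := by decide

/-- height difference along a segment of length `n` from `x` in the direction `i` -/
def hs (Y : V d → Fin 3) (x : V d) (i : Fin d) (n : ℕ) : ℤ :=
  ∑ j ∈ Finset.range n, st (Y (x + Pi.single i (j : ℤ))) (Y (x + Pi.single i ((j : ℤ) + 1)))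

theorem hs_zero (Y : V d → Fin 3) (x : V d) (i : Fin d) : hs Y x i 0 = 0 := rfl

theorem hs_succ (Y : V d → Fin 3) (x : V d) (i : Fin d) (n : ℕ) :
    hs Y x i (n + 1) = hs Y x i n +
      st (Y (x + Pi.single i (n : ℤ))) (Y (x + Pi.single i ((n : ℤ) + 1))) :=
  Finset.sum_range_succ _ _

theorem hs_add (Y : V d → Fin 3) (x : V d) (i : Fin d) (m n : ℕ) :
    hs Y x i (m + n) = hs Y x i m + hs Y (x + Pi.single i (m : ℤ)) i n := by
  induction n with
  | zero => rw [hs_zero, add_zero, add_zero]
  | succ n ih =>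
    rw [← add_assoc, hs_succ, ih, hs_succ]
    have e1 : x + Pi.single i (m : ℤ) + Pi.single i (n : ℤ) = x + Pi.single i (((m + n : ℕ)) : ℤ) := by
      rw [add_assoc, ← Pi.single_add]; push_cast; rfl
    have e2 : x + Pi.single i (m : ℤ) + Pi.single i ((n : ℤ) + 1) =
        x + Pi.single i (((m + n : ℕ) : ℤ) + 1) := by
      rw [add_assoc, ← Pi.single_add]; push_cast; rw [add_assoc]
    rw [e1, e2]
    ring

theorem hs_le (Y : V d → Fin 3) (x : V d) (i : Fin d) (n : ℕ) : hs Y x i n ≤ n := by
  unfold hs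
  refine (Finset.sum_le_card_nsmul _ _ 1 fun j _ => st_le _ _).trans ?_
  simp

theorem hs_ge (Y : V d → Fin 3) (x : V d) (i : Fin d) (n : ℕ) : -(n : ℤ) ≤ hs Y x i n := by
  unfold hs
  have := Finset.card_nsmul_le_sum (Finset.range n)
    (fun j : ℕ => st (Y (x + Pi.single i (j : ℤ))) (Y (x + Pi.single i ((j : ℤ) + 1)))) (-1)
    fun j _ => st_ge _ _
  simpa using this

theorem hs_eq_top {Y : V d → Fin 3} {x : V d} {i : Fin d} {n : ℕ} (h : hs Y x i n = n) :
    ∀ j < n, st (Y (x + Pi.single i (j : ℤ))) (Y (x + Pi.single i ((j : ℤ) + 1))) = 1 := by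
  induction n with
  | zero => intro j hj; omega
  | succ n ih =>
    rw [hs_succ] at h
    have h1 := hs_le Y x i n
    have h2 := st_le (Y (x + Pi.single i (n : ℤ))) (Y (x + Pi.single i ((n : ℤ) + 1)))
    push_cast at h
    intro j hj
    rcases Nat.lt_succ_iff_lt_or_eq.1 hj with h3 | rfl
    · exact ih (by omega) j h3
    · omega

theorem hs_eq_bot {Y : V d → Fin 3} {x : V d} {i : Fin d} {n : ℕ} (h : hs Y x i n = -n) :
    ∀ j < n, st (Y (x + Pi.single i (j : ℤ))) (Y (x + Pi.single i ((j : ℤ) + 1))) = -1 := by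
  induction n with
  | zero => intro j hj; omega
  | succ n ih =>
    rw [hs_succ] at h
    have h1 := hs_ge Y x i n
    have h2 := st_ge (Y (x + Pi.single i (n : ℤ))) (Y (x + Pi.single i ((n : ℤ) + 1)))
    push_cast at h
    intro j hj
    rcases Nat.lt_succ_iff_lt_or_eq.1 hj with h3 | rfl
    · exact ih (by omega) j h3
    · omega

theorem nrm_single (i : Fin d) (a : ℤ) : nrm (Pi.single i a : V d) = a.natAbs := by
  unfold nrm
  rw [Finset.sum_eq_single i]
  · rw [Pi.single_eq_same]
  · intro j _ hj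
    rw [Pi.single_eq_of_ne hj]; rfl
  · simp

/-- proper colorings -/
def Prop3 (Y : V d → Fin 3) : Prop := ∀ u v : V d, nrm (u - v) = 1 → Y u ≠ Y v

theorem Prop3.ne {Y : V d → Fin 3} (h : Prop3 Y) (x : V d) (i : Fin d) (a : ℤ) :
    Y (x + Pi.single i a) ≠ Y (x + Pi.single i (a + 1)) := by
  apply h
  have : x + Pi.single i a - (x + Pi.single i (a + 1)) = Pi.single i (-1 : ℤ) := by
    rw [Pi.single_add]
    have : (Pi.single i (-1 : ℤ) : V d) = -Pi.single i 1 := by rw [Pi.single_neg]
    rw [this]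
    abel
  rw [this, nrm_single]
  rfl

theorem hs_parity {Y : V d → Fin 3} {x : V d} {i : Fin d} {n : ℕ}
    (h : ∀ j < n, Y (x + Pi.single i (j : ℤ)) ≠ Y (x + Pi.single i ((j : ℤ) + 1))) :
    hs Y x i n % 2 = (n : ℤ) % 2 := by
  induction n with
  | zero => rfl
  | succ n ih =>
    rw [hs_succ]
    have h1 := ih fun j hj => h j (by omega)
    have h2 := st_odd _ _ (h n (by omega))
    push_cast
    omega

theorem hs_col {Y : V d → Fin 3} (h : Prop3 Y) (x : V d) (i j : Fin d) (m : ℕ) :
    st (Y x) (Y (x + Pi.single i 1)) + hs Y (x + Pi.single i 1) j m =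
      hs Y x j m + st (Y (x + Pi.single j (m : ℤ)))
        (Y (x + Pi.single j (m : ℤ) + Pi.single i 1)) := by
  induction m with
  | zero => simp [hs_zero]
  | succ m ih =>
    rw [hs_succ, hs_succ, ← add_assoc, ih]
    set z := x + Pi.single j (m : ℤ) with hz
    have e1 : x + Pi.single i 1 + Pi.single j (m : ℤ) = z + Pi.single i 1 := by rw [hz]; abel
    have e2 : x + Pi.single j ((m : ℤ) + 1) = z + Pi.single j 1 := by
      rw [hz, Pi.single_add]; abel
    have e3 : x + Pi.single i 1 + Pi.single j ((m : ℤ) + 1) = z + Pi.single i 1 + Pi.single j 1 := by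
      rw [hz, Pi.single_add]; abel
    have e4 : x + Pi.single j (((m + 1 : ℕ)) : ℤ) = z + Pi.single j 1 := by
      rw [← e2]; push_cast; rfl
    rw [e1, e2, e3, e4]
    have e5 : z + Pi.single j 1 + Pi.single i 1 = z + Pi.single i 1 + Pi.single j 1 := by abel
    rw [e5]
    have a1 : Y z ≠ Y (z + Pi.single i 1) := by simpa using h.ne z i 0
    have a2 : Y z ≠ Y (z + Pi.single j 1) := by simpa using h.ne z j 0
    have a3 : Y (z + Pi.single i 1) ≠ Y (z + Pi.single i 1 + Pi.single j 1) := by
      simpa using h.ne (z + Pi.single i 1) j 0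
    have a4 : Y (z + Pi.single j 1) ≠ Y (z + Pi.single i 1 + Pi.single j 1) := by
      rw [← e5]; simpa using h.ne (z + Pi.single j 1) i 0
    have := st_square _ _ _ _ a1 a3 a2 a4
    linarith

/-- the rectangle identity -/
theorem hs_rect {Y : V d → Fin 3} (h : Prop3 Y) (x : V d) (i j : Fin d) (n m : ℕ) :
    hs Y x i n + hs Y (x + Pi.single i (n : ℤ)) j m =
      hs Y x j m + hs Y (x + Pi.single j (m : ℤ)) i n := by
  induction n with
  | zero => simp [hs_zero]
  | succ n ih =>
    rw [hs_succ, hs_succ]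
    set z := x + Pi.single i (n : ℤ) with hz
    have h1 := hs_col h z i j m
    have e1 : x + Pi.single i ((n : ℤ) + 1) = z + Pi.single i 1 := by
      rw [hz, Pi.single_add]; abel
    have e2 : x + Pi.single i (((n + 1 : ℕ)) : ℤ) = z + Pi.single i 1 := by
      rw [← e1]; push_cast; rfl
    have e3 : x + Pi.single j (m : ℤ) + Pi.single i (n : ℤ) = z + Pi.single j (m : ℤ) := by
      rw [hz]; abel
    have e4 : x + Pi.single j (m : ℤ) + Pi.single i ((n : ℤ) + 1) =
        z + Pi.single j (m : ℤ) + Pi.single i 1 := by rw [hz, Pi.single_add]; abel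
    rw [e1, e2, e3, e4]
    linarith

/-! ### Dependence and measurability -/

variable {S : Type*}

open Classical in
/-- replacing the labels outside the ball of radius `r` by `s` -/
noncomputable def trunc (s : S) (r : ℕ) (ω : V d → S) : V d → S :=
  fun v => if nrm v ≤ r then ω v else s

/-- the coloring with the information at distance at most `r` -/
noncomputable def Yr (F : (V d → S) → Fin 3) (s : S) (r : ℕ) (ω : V d → S) (v : V d) : Fin 3 :=
  F (trunc s r (shift v ω))

theorem yr_dep (F : (V d → S) → Fin 3) (s : S) (r : ℕ) (v : V d) :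
    DependsOn (fun ω => Yr F s r ω v) {u | nrm (u - v) ≤ r} := by
  intro ω ω' h
  have h1 : trunc s r (shift v ω) = trunc s r (shift v ω') := by
    funext u
    unfold trunc shift
    by_cases hu : nrm u ≤ r
    · simp only [hu, if_true]
      apply h
      simpa using hu
    · simp only [hu, if_false]
  show F _ = F _
  rw [h1]

theorem yr_shift (F : (V d → S) → Fin 3) (s : S) (r : ℕ) (b : V d) (ω : V d → S) (v : V d) :
    Yr F s r (shift b ω) v = Yr F s r ω (v + b) := by
  unfold Yr
  congr 2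
  funext u
  unfold shift
  rw [add_assoc]

theorem hs_shift (F : (V d → S) → Fin 3) (s : S) (r : ℕ) (b : V d) (ω : V d → S) (x : V d)
    (i : Fin d) (n : ℕ) : hs (Yr F s r (shift b ω)) x i n = hs (Yr F s r ω) (x + b) i n := by
  unfold hs
  apply Finset.sum_congr rfl
  intro j _
  rw [yr_shift, yr_shift]
  have e1 : x + Pi.single i (j : ℤ) + b = x + b + Pi.single i (j : ℤ) := by abel
  have e2 : x + Pi.single i ((j : ℤ) + 1) + b = x + b + Pi.single i ((j : ℤ) + 1) := by abel
  rw [e1, e2]

theorem hs_dep (F : (V d → S) → Fin 3) (s : S) (r : ℕ) (x : V d) (i : Fin d) (n : ℕ)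
    (T : Set (V d)) (hT : ∀ j : ℤ, 0 ≤ j → j ≤ n → ∀ u, nrm (u - (x + Pi.single i j)) ≤ r → u ∈ T) :
    DependsOn (fun ω => hs (Yr F s r ω) x i n) T := by
  intro ω ω' h
  unfold hs
  apply Finset.sum_congr rfl
  intro j hj
  rw [Finset.mem_range] at hj
  have hh : ∀ a : ℤ, 0 ≤ a → a ≤ n →
      Yr F s r ω (x + Pi.single i a) = Yr F s r ω' (x + Pi.single i a) := by
    intro a h0 h1
    have := yr_dep F s r (x + Pi.single i a)
    apply this
    intro u hu
    exact h u (hT a h0 h1 u hu)
  rw [hh (j : ℤ) (by omega) (by omega), hh ((j : ℤ) + 1) (by omega) (by omega)]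

/-- the slab `a ≤ u i ≤ b` -/
def slab (i : Fin d) (a b : ℤ) : Set (V d) := {u | a ≤ u i ∧ u i ≤ b}

theorem slab_disj (i : Fin d) {a b a' b' : ℤ} (h : b < a') : Disjoint (slab i a b) (slab i a' b') := by
  rw [Set.disjoint_left]
  rintro u ⟨_, h1⟩ ⟨h2, _⟩
  omega

theorem dep_mono {α : Type*} {f : (V d → S) → α} {A B : Set (V d)} (h : DependsOn f A)
    (hAB : A ⊆ B) : DependsOn f B := fun _ _ h' => h fun v hv => h' v (hAB hv)

theorem dep_shift {α : Type*} {f : (V d → S) → α} {i : Fin d} {a b : ℤ}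
    (h : DependsOn f (slab i a b)) (c : ℤ) :
    DependsOn (fun ω => f (shift (Pi.single i c) ω)) (slab i (a + c) (b + c)) := by
  intro ω ω' h'
  apply h
  intro v hv
  unfold shift
  apply h'
  unfold slab at hv ⊢
  simp only [Set.mem_ofPred_eq, Pi.add_apply, Pi.single_eq_same] at hv ⊢
  constructor <;> omega

theorem shift_single_add (i : Fin d) (a b : ℤ) (ω : V d → S) :
    shift (Pi.single i a) (shift (Pi.single i b) ω) = shift (Pi.single i (a + b)) ω := by
  funext v
  unfold shift
  rw [Pi.single_add, add_assoc]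

theorem coord_of_nrm {u v : V d} {r : ℕ} (h : nrm (u - v) ≤ r) (i : Fin d) :
    v i - r ≤ u i ∧ u i ≤ v i + r := by
  have := natAbs_le_nrm (u - v) i
  rw [Pi.sub_apply] at this
  constructor <;> omega

variable [MeasurableSpace S]

theorem trunc_meas (s : S) (r : ℕ) : Measurable (trunc (d := d) s r) := by
  classical
  refine measurable_pi_lambda _ fun v => ?_
  by_cases h : nrm v ≤ r
  · have : (fun ω : V d → S => trunc s r ω v) = fun ω => ω v := by
      funext ω; exact if_pos h
    rw [this]; fun_prop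
  · have : (fun ω : V d → S => trunc s r ω v) = fun _ => s := by
      funext ω; exact if_neg h
    rw [this]; fun_prop

theorem yr_meas {F : (V d → S) → Fin 3} (hF : Measurable F) (s : S) (r : ℕ) (v : V d) :
    Measurable fun ω => Yr F s r ω v :=
  hF.comp ((trunc_meas s r).comp (shift_meas v))

theorem hs_meas {F : (V d → S) → Fin 3} (hF : Measurable F) (s : S) (r : ℕ) (x : V d)
    (i : Fin d) (n : ℕ) : Measurable fun ω => hs (Yr F s r ω) x i n := by
  unfold hs
  refine Finset.measurable_sum _ fun j _ => ?_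
  have h1 := (yr_meas hF s r (x + Pi.single i (j : ℤ))).prodMk
    (yr_meas hF s r (x + Pi.single i ((j : ℤ) + 1)))
  exact (Measurable.of_discrete (f := fun p : Fin 3 × Fin 3 => st p.1 p.2)).comp h1

end Pool.Agent.H96C3
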