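import Pool.Agent.H96C3.Params
import Pool.Agent.H96C3.Defs

/-!
The construction of the finitary factor.
-/

set_option autoImplicit false

open MeasureTheory ProbabilityTheory Filter Topology
open scoped ENNReal

namespace Pool.Agent.H96C3

variable {d : ℕ}

/-- measurability of the sets determined by finitely many discrete variables -/
theorem sat_meas {Ω ι : Type*} [MeasurableSpace Ω] [Finite ι] {f : ι → Ω → ℕ}
    (hf : ∀ i, Measurable (f i)) {E : Set Ω}
    (hE : ∀ ω ω', (∀ i, f i ω = f i ω') → ω ∈ E → ω' ∈ E) : MeasurableSet E := by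
  have hπ : Measurable (fun ω i => f i ω) := measurable_pi_lambda _ hf
  have h1 : E = (fun ω i => f i ω) ⁻¹' ((fun ω i => f i ω) '' E) := by
    ext ω
    constructor
    · exact fun h => ⟨ω, h, rfl⟩
    · rintro ⟨ω', h', he⟩
      exact hE ω' ω (fun i => congrFun he i) h'
  rw [h1]
  exact hπ (Set.to_countable _).measurableSet

/-- labels with countably many components -/
abbrev L : Type := ℕ → unitInterval

/-- the law of one label -/
noncomputable abbrev muL : Measure L := Measure.infinitePi fun _ : ℕ => (volume : Measure unitInterval)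

theorem lawF_eq (d : ℕ) : lawF d = law d muL := rfl

/-- the scales in dimension `d` -/
def Pd (d : ℕ) : Par := par (2 * d + 2) (by omega)

/-- the labels -/
noncomputable def lb (ω : V d → L) : ℕ → V d → ℕ := lab (Pd d) lam ω

theorem lb_le (ω : V d → L) (k : ℕ) (v : V d) : lb ω k v ≤ (Pd d).D k := lab_le _ _ _ _ _

theorem lb_meas (k : ℕ) (v : V d) : Measurable fun ω : V d → L => lb ω k v :=
  (geo_meas (lam_pos k) (lam_lt k) _).comp ((measurable_pi_apply k).comp (measurable_pi_apply v))

theorem lb_shift (b : V d) (ω : V d → L) : lb (shift b ω) = fun k => tr b (lb ω k) := rfl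

/-- the coloring -/
noncomputable def col (ω : V d → L) (v : V d) : Fin 3 := (Pd d).colAt (lb ω) v

theorem col_shift (b : V d) (ω : V d → L) : col (shift b ω) = shift b (col ω) := by
  funext v
  unfold col
  rw [lb_shift, Par.colAt_tr]
  rfl

/-- the event that the level `m` is good at the origin -/
def GE (d m : ℕ) : Set (V d → L) := {ω | (Pd d).Good (lb ω) m 0}

theorem ge_meas (m : ℕ) : MeasurableSet (GE d m) :=
  win_meas (δ := fun v (ω : V d → L) => lb ω m v) (fun v => lb_meas m v) _ _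

theorem col_meas0 : Measurable fun ω : V d → L => col ω 0 := by
  classical
  have hfin : ∀ (m : ℕ) (c : Fin 3), MeasurableSet {ω : V d → L | ω ∈ GE d m ∧ col ω 0 = c} := by
    intro m c
    refine sat_meas (ι := ↥(Finset.range (m + 1) ×ˢ box d ((Pd d).rho m)))
      (f := fun p ω => lb ω p.1.1 p.1.2) (fun p => lb_meas _ _) ?_
    rintro ω ω' h ⟨h1, h2⟩
    have h3 : ∀ k ≤ m, ∀ w ∈ ball (0 : V d) ((Pd d).rho m), lb ω k w = lb ω' k w := by
      intro k hk w hw
      have hw' : w ∈ box d ((Pd d).rho m) := by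
        apply mem_box_of_nrm
        rw [mem_ball, zero_sub, nrm_neg] at hw
        exact hw
      exact h ⟨(k, w), Finset.mem_product.2 ⟨Finset.mem_range.2 (by omega), hw'⟩⟩
    refine ⟨(Pd d).good_congr (lb_le ω) (lb_le ω') (h3 m le_rfl) h1, ?_⟩
    rw [← h2]
    exact ((Pd d).colAt_congr (lb_le ω) (lb_le ω') h1 h3).symm
  refine measurable_to_countable' fun c => ?_
  have h1 : (fun ω : V d → L => col ω 0) ⁻¹' {c} =
      (⋃ m, {ω : V d → L | ω ∈ GE d m ∧ col ω 0 = c}) ∪
        ({ω | c = 0} ∩ (⋃ m, GE d m)ᶜ) := by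
    ext ω
    simp only [Set.mem_preimage, Set.mem_singleton_iff, Set.mem_union, Set.mem_iUnion,
      Set.mem_inter_iff, Set.mem_compl_iff, not_exists]
    constructor
    · intro h
      by_cases hex : ∃ m, ω ∈ GE d m
      · obtain ⟨m, hm⟩ := hex
        exact Or.inl ⟨m, hm, h⟩
      · right
        refine ⟨?_, fun m hm => hex ⟨m, hm⟩⟩
        have h2 : ¬ ∃ m, (Pd d).Good (lb ω) m 0 := hex
        unfold col Par.colAt at h
        rw [dif_neg h2] at h
        exact h.symm
    · rintro (⟨m, _, h⟩ | ⟨h, h'⟩)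
      · exact h
      · have h2 : ¬ ∃ m, (Pd d).Good (lb ω) m 0 := fun ⟨m, hm⟩ => h' m hm
        unfold col Par.colAt
        rw [dif_neg h2]
        exact h.symm
  rw [h1]
  refine (MeasurableSet.iUnion fun m => hfin m c).union
    ((MeasurableSet.const _).inter (MeasurableSet.iUnion fun m => ge_meas m).compl)

theorem col_meas : Measurable (col : (V d → L) → V d → Fin 3) := by
  refine measurable_pi_lambda _ fun v => ?_
  have h1 : (fun ω : V d → L => col ω v) = fun ω => col (shift v ω) 0 := by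
    funext ω
    rw [col_shift]
    unfold shift
    rw [zero_add]
  rw [h1]
  exact col_meas0.comp (shift_meas v)

/-- the event that the levels below `m` are not good at the origin -/
def NG (d m : ℕ) : Set (V d → L) := {ω | ∀ k < m, ω ∉ GE d k}

theorem ng_meas (m : ℕ) : MeasurableSet (NG d m) := by
  have : NG d m = ⋂ k, ⋂ _ : k < m, (GE d k)ᶜ := by
    ext ω
    simp only [NG, Set.mem_ofPred_eq, Set.mem_iInter, Set.mem_compl_iff]
  rw [this]
  exact MeasurableSet.iInter fun k => MeasurableSet.iInter fun _ => (ge_meas k).compl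

theorem ng_prob (m : ℕ) : lawF d (NG d m) ≤ ENNReal.ofReal (∏ k ∈ Finset.range m, qb d k) := by
  have h1 := levels (fun k => Bad (d := d) (Pd d) lam k) (fun k => bad_meas (Pd d) lam_pos lam_lt k) m
  have h2 : NG d m = {ω | ∀ k < m, (fun v => ω v k) ∈ Bad (d := d) (Pd d) lam k} := rfl
  rw [h2, h1, ENNReal.ofReal_prod_of_nonneg fun k _ => (qb_pos d k).le]
  refine Finset.prod_le_prod' fun k _ => ?_
  exact (bad_prob (Pd d) lam_pos lam_lt k).trans (ENNReal.ofReal_le_ofReal (prob_le d k))

theorem rho_one (m : ℕ) : 1 ≤ (Pd d).rho m := by unfold Par.rho; omega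

theorem ae_good0 : ∀ᵐ ω ∂(lawF d), ∃ m, ω ∈ GE d m := by
  have h1 : lawF d {ω | ¬ ∃ m, ω ∈ GE d m} ≤ 0 := by
    have h2 := (series d (α := 1 / 2) (by norm_num) (by norm_num)).tendsto_atTop_zero
    have h3 := ENNReal.tendsto_ofReal h2
    rw [ENNReal.ofReal_zero] at h3
    refine ge_of_tendsto' h3 fun m => ?_
    calc lawF d {ω | ¬ ∃ m, ω ∈ GE d m} ≤ lawF d (NG d m) := by
          apply measure_mono
          intro ω hω k _ hk
          exact hω ⟨k, hk⟩
      _ ≤ ENNReal.ofReal (∏ k ∈ Finset.range m, qb d k) := ng_prob m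
      _ ≤ _ := by
          apply ENNReal.ofReal_le_ofReal
          have h4 : (0 : ℝ) < ∏ k ∈ Finset.range m, qb d k :=
            Finset.prod_pos fun k _ => qb_pos d k
          have h5 : (1 : ℝ) ≤ ((par (2 * d + 2) (by omega)).rho m : ℝ) ^ (1 / 2 : ℝ) := by
            apply Real.one_le_rpow _ (by norm_num)
            exact_mod_cast rho_one (d := d) m
          nlinarith
  exact nonpos_iff_eq_zero.1 h1

theorem ae_good : ∀ᵐ ω ∂(lawF d), ∀ v, ∃ m, (Pd d).Good (lb ω) m v := by
  rw [ae_all_iff]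
  intro v
  have h1 := (shift_law (d := d) muL v).quasiMeasurePreserving.ae (ae_good0 (d := d))
  filter_upwards [h1] with ω hω
  obtain ⟨m, hm⟩ := hω
  refine ⟨m, ?_⟩
  have h2 : (Pd d).Good (lb (shift v ω)) m 0 := hm
  rw [lb_shift, Par.good_tr, zero_add] at h2
  exact h2

/-- the majorant of the coding radius -/
noncomputable def maj (α : ℝ) (ω : V d → L) : ℝ≥0∞ :=
  (∑' m, ((Pd d).rho m : ℝ≥0∞) ^ α * (NG d m).indicator 1 ω) ^ (1 / α)

theorem maj_meas (α : ℝ) : Measurable (maj (d := d) α) := by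
  unfold maj
  exact (Measurable.tsum fun m => (measurable_one.indicator (ng_meas m)).const_mul _).pow_const _

theorem maj_int {α : ℝ} (h0 : 0 < α) (h1 : α < 1) : ∫⁻ ω, maj (d := d) α ω ^ α ∂(lawF d) < ⊤ := by
  have e1 : ∀ ω, maj (d := d) α ω ^ α =
      ∑' m, ((Pd d).rho m : ℝ≥0∞) ^ α * (NG d m).indicator 1 ω := by
    intro ω
    unfold maj
    rw [← ENNReal.rpow_mul, one_div, inv_mul_cancel₀ h0.ne', ENNReal.rpow_one]
  simp only [e1]
  rw [lintegral_tsum fun m => ((measurable_one.indicator (ng_meas m)).const_mul _).aemeasurable]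
  have h2 : ∀ m, ∫⁻ ω, ((Pd d).rho m : ℝ≥0∞) ^ α * (NG d m).indicator 1 ω ∂(lawF d) ≤
      ENNReal.ofReal (((Pd d).rho m : ℝ) ^ α * ∏ k ∈ Finset.range m, qb d k) := by
    intro m
    rw [lintegral_const_mul _ (measurable_one.indicator (ng_meas m)),
      lintegral_indicator_one (ng_meas m), ENNReal.ofReal_mul (by positivity),
      ← ENNReal.ofReal_rpow_of_pos (by exact_mod_cast rho_one (d := d) m), ENNReal.ofReal_natCast]
    exact mul_le_mul_right (ng_prob m) _
  refine lt_of_le_of_lt (ENNReal.tsum_le_tsum h2) ?_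
  have h3 : Summable fun m : ℕ => ((Pd d).rho m : ℝ) ^ α *
      ∏ k ∈ Finset.range m, qb d k := series d h0 h1
  rw [← ENNReal.ofReal_tsum_of_nonneg (fun m => ?_) h3]
  · exact ENNReal.ofReal_lt_top
  · have h4 : (0 : ℝ) < ∏ k ∈ Finset.range m, qb d k := Finset.prod_pos fun k _ => qb_pos d k
    positivity

theorem maj_ge {α : ℝ} (h0 : 0 < α) {ω : V d → L} (h : ∃ m, ω ∈ GE d m) :
    ∃ n : ℕ, (n : ℝ≥0∞) ≤ maj α ω ∧
      ∀ ω' : V d → L, (∀ v, nrm v ≤ n → ω' v = ω v) → col ω' 0 = col ω 0 := by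
  classical
  set m := Nat.find h with hm
  have h1 : ω ∈ GE d m := Nat.find_spec h
  have h2 : ω ∈ NG d m := fun k hk => Nat.find_min h hk
  refine ⟨(Pd d).rho m, ?_, ?_⟩
  · unfold maj
    calc ((Pd d).rho m : ℝ≥0∞) = (((Pd d).rho m : ℝ≥0∞) ^ α) ^ (1 / α) := by
          rw [← ENNReal.rpow_mul, mul_one_div_cancel h0.ne', ENNReal.rpow_one]
      _ ≤ _ := by
          apply ENNReal.rpow_le_rpow _ (by positivity)
          refine le_trans (le_of_eq ?_) (ENNReal.le_tsum m)
          rw [Set.indicator_of_mem h2]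
          simp
  · intro ω' hω'
    refine ((Pd d).colAt_congr (lb_le ω) (lb_le ω') h1 ?_).symm
    intro k _ w hw
    rw [mem_ball, zero_sub, nrm_neg] at hw
    have := hω' w hw
    unfold lb lab
    rw [this]

/-! ### Transfer to a single uniform label -/

theorem exists_transfer : ∃ θ : unitInterval → L, Measurable θ ∧
    (volume : Measure unitInterval).map θ = muL :=
  Measure.exists_measurable_map_eq muL

theorem transfer_law {θ : unitInterval → L} (hθ : Measurable θ)
    (hθ' : (volume : Measure unitInterval).map θ = muL) :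
    MeasurePreserving (fun (ω : V d → unitInterval) v => θ (ω v)) (law d volume) (lawF d) := by
  refine ⟨by fun_prop, ?_⟩
  have := Measure.infinitePi_map_pi (μ := fun _ : V d => (volume : Measure unitInterval))
    (f := fun _ : V d => θ) (fun _ => hθ)
  unfold law
  rw [lawF_eq]
  unfold law
  rw [this, hθ']

/-- the positive half -/
theorem exists_ffiid (d : ℕ) : ∃ Φ : (V d → unitInterval) → V d → Fin 3,
    IsFFIID volume Φ ∧ ∀ α : ℝ, 0 < α → α < 1 → HasMoment volume Φ α := by
  obtain ⟨θ, hθ, hθ'⟩ := exists_transfer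
  have hT := transfer_law (d := d) hθ hθ'
  set T : (V d → unitInterval) → (V d → L) := fun ω v => θ (ω v) with hTdef
  have hrad : ∀ ω : V d → unitInterval, ∀ α : ℝ, 0 < α → (∃ m, T ω ∈ GE d m) →
      ∃ n : ℕ, (n : ℝ≥0∞) ≤ maj α (T ω) ∧ radius (fun ω => col (T ω)) ω ≤ n := by
    intro ω α hα h
    obtain ⟨n, hn1, hn2⟩ := maj_ge hα h
    refine ⟨n, hn1, radius_le ?_⟩
    intro ω' hω'
    apply hn2
    intro v hv
    simp only [hTdef, hω' v hv]
  have hae := hT.quasiMeasurePreserving.ae (ae_good0 (d := d))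
  refine ⟨fun ω => col (T ω), ⟨col_meas.comp hT.measurable, ?_, ?_, ?_⟩, ?_⟩
  · intro b ω
    exact col_shift b (T ω)
  · filter_upwards [hae] with ω hω
    obtain ⟨n, _, hn⟩ := hrad ω 1 one_pos hω
    exact ne_top_of_le_ne_top (ENat.natCast_ne_top n) hn
  · filter_upwards [hT.quasiMeasurePreserving.ae (ae_good (d := d))] with ω hω
    intro u v huv
    exact (Pd d).colAt_ne (lb_le _) (hω u) (hω v) huv
  · intro α h0 h1
    refine ⟨fun ω => maj α (T ω), (maj_meas α).comp hT.measurable, ?_, ?_⟩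
    · filter_upwards [hae] with ω hω
      obtain ⟨n, hn1, hn2⟩ := hrad ω α h0 hω
      refine le_trans ?_ hn1
      have := ENat.toENNReal_le.2 hn2
      simpa using this
    · have h2 := hT.lintegral_comp (f := fun ω => maj (d := d) α ω ^ α)
        ((maj_meas α).pow_const α)
      rw [h2]
      exact maj_int h0 h1

end Pool.Agent.H96C3
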