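import Pool.Agent.H96C3.Sw

/-!
The choice of the scales.
-/

set_option autoImplicit false

open Filter Topology

namespace Pool.Agent.H96C3

/-- the basic scale -/
def Dm (A k : ℕ) : ℕ := A * k ^ 2 * 2 ^ (k ^ 2)

theorem Dm_succ {A : ℕ} (hA : 1 ≤ A) (k : ℕ) : 2 * Dm A k + 2 ≤ Dm A (k + 1) := by
  unfold Dm
  have e1 : (k + 1) ^ 2 = k ^ 2 + (2 * k + 1) := by ring
  have h1 : 2 * 2 ^ (k ^ 2) ≤ 2 ^ ((k + 1) ^ 2) := by
    rw [e1, pow_add, mul_comm]
    apply Nat.mul_le_mul_left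
    calc 2 = 2 ^ 1 := rfl
      _ ≤ 2 ^ (2 * k + 1) := Nat.pow_le_pow_right (by norm_num) (by omega)
  have h2 : k ^ 2 + 1 ≤ (k + 1) ^ 2 := by rw [e1]; omega
  have h3 : 1 ≤ 2 ^ (k ^ 2) := Nat.one_le_two_pow
  calc 2 * (A * k ^ 2 * 2 ^ (k ^ 2)) + 2 ≤ 2 * (A * k ^ 2 * 2 ^ (k ^ 2)) + 2 * (A * 2 ^ (k ^ 2)) := by
        have : 1 ≤ A * 2 ^ (k ^ 2) := Nat.mul_le_mul hA h3
        omega
    _ = A * (k ^ 2 + 1) * (2 * 2 ^ (k ^ 2)) := by ring
    _ ≤ A * (k + 1) ^ 2 * 2 ^ ((k + 1) ^ 2) :=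
        Nat.mul_le_mul (Nat.mul_le_mul_left _ h2) h1

/-- the scales -/
def par (A : ℕ) (hA : 1 ≤ A) : Par where
  D k := Dm A (k + 1)
  W k := 28 * Dm A k + 56
  W0 := by omega
  W1 k := by have := Dm_succ hA k; omega
  W2 k := by omega
  D1 k := by have := Dm_succ hA (k + 1); omega

theorem par_N (A : ℕ) (hA : 1 ≤ A) (k : ℕ) : (par A hA).N k ≤ 2 * Dm A k := by
  induction k with
  | zero => simp [Par.N]
  | succ k ih =>
    rw [Par.N_succ]
    have h1 := Dm_succ hA k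
    have h2 : (par A hA).D k = Dm A (k + 1) := rfl
    omega

theorem par_gap (A : ℕ) (hA : 1 ≤ A) (k : ℕ) :
    (par A hA).W k + 2 + 2 * (par A hA).N k ≤ 32 * Dm A k + 58 := by
  have h1 := par_N A hA k
  have h2 : (par A hA).W k = 28 * Dm A k + 56 := rfl
  omega

theorem par_rho (A : ℕ) (hA : 2 ≤ A) (k : ℕ) :
    (par A (by omega)).rho k ≤ 24 * Dm A (k + 1) := by
  have h1 := par_gap A (by omega) k
  have h2 : (par A (by omega)).D k = Dm A (k + 1) := rfl
  have h3 := Dm_succ (show 1 ≤ A by omega) k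
  have h4 : 4 ≤ Dm A (k + 1) := by
    have h5 : 1 ≤ (k + 1) ^ 2 := Nat.one_le_pow _ _ (by omega)
    have h6 : 2 ≤ 2 ^ ((k + 1) ^ 2) :=
      (Nat.pow_le_pow_right (by norm_num) h5 : 2 ^ 1 ≤ 2 ^ ((k + 1) ^ 2))
    unfold Dm
    have h7 : 2 * 1 ≤ A * (k + 1) ^ 2 := Nat.mul_le_mul hA h5
    have := Nat.mul_le_mul h7 h6
    omega
  unfold Par.rho
  omega

/-- the probabilities of `1` to continue -/
noncomputable def lam (k : ℕ) : ℝ := 1 - 1 / 2 ^ ((k + 1) ^ 2)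

theorem lam_pos (k : ℕ) : 0 < lam k := by
  unfold lam
  have h5 : 1 ≤ (k + 1) ^ 2 := Nat.one_le_pow _ _ (by omega)
  have h6 : (2 : ℝ) ^ 1 ≤ 2 ^ ((k + 1) ^ 2) := pow_le_pow_right₀ (by norm_num) h5
  have h7 : (1 : ℝ) / 2 ^ ((k + 1) ^ 2) < 1 := by
    rw [div_lt_one (by positivity)]
    linarith
  linarith

theorem lam_lt (k : ℕ) : lam k < 1 := by
  unfold lam
  have : (0 : ℝ) < 1 / 2 ^ ((k + 1) ^ 2) := by positivity
  linarith

/-- the bound for the probability of failure -/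
noncomputable def qb (d : ℕ) (k : ℕ) : ℝ :=
  (32 * (2 * d + 2 : ℕ) + 58 + (49 * (2 * d + 2 : ℕ)) ^ d) * ((k : ℝ) + 1) ^ 2 / 2 ^ (2 * k + 1)

theorem qb_pos (d k : ℕ) : 0 < qb d k := by unfold qb; positivity

theorem prob_le (d : ℕ) (k : ℕ) :
    1 - lam k ^ ((par (2 * d + 2) (by omega)).W k + 2 + 2 * (par (2 * d + 2) (by omega)).N k) +
      ((2 * ((par (2 * d + 2) (by omega)).rho k) + 1 : ℕ) : ℝ) ^ d *
        lam k ^ (par (2 * d + 2) (by omega)).D k ≤ qb d k := by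
  set A := 2 * d + 2 with hA
  set P := par A (by omega) with hP
  obtain ⟨X, hX⟩ : ∃ X : ℝ, X = 2 ^ ((k + 1) ^ 2) := ⟨_, rfl⟩
  have hX0 : 0 < X := by rw [hX]; positivity
  have e1 : (k + 1) ^ 2 = k ^ 2 + (2 * k + 1) := by ring
  have hX2 : X = 2 ^ (k ^ 2) * 2 ^ (2 * k + 1) := by rw [hX, e1, pow_add]
  have hk1 : (1 : ℝ) ≤ ((k : ℝ) + 1) ^ 2 := by
    have : (0 : ℝ) ≤ k := by positivity
    nlinarith
  have hXk : ((k : ℝ) + 1) ^ 2 ≤ X := by
    rw [hX]
    have : (k + 1) ^ 2 ≤ 2 ^ ((k + 1) ^ 2) := Nat.lt_two_pow_self.le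
    exact_mod_cast this
  have h2k : (1 : ℝ) ≤ 2 ^ (k ^ 2) := one_le_pow₀ (by norm_num)
  -- the first term
  have h1 : 1 - lam k ^ (P.W k + 2 + 2 * P.N k) ≤
      (32 * A + 58) * ((k : ℝ) + 1) ^ 2 / 2 ^ (2 * k + 1) := by
    have hb := one_add_mul_le_pow (a := -(1 / X)) (by
      have : 1 / X ≤ 1 := by
        rw [div_le_one hX0]; linarith
      linarith) (P.W k + 2 + 2 * P.N k)
    have hl : 1 + -(1 / X) = lam k := by unfold lam; rw [hX]; ring
    rw [hl] at hb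
    have hg : ((P.W k + 2 + 2 * P.N k : ℕ) : ℝ) ≤ 32 * Dm A k + 58 := by
      exact_mod_cast par_gap A (by omega) k
    have hg2 : (32 * (Dm A k : ℝ) + 58) ≤ (32 * A + 58) * ((k : ℝ) + 1) ^ 2 * 2 ^ (k ^ 2) := by
      unfold Dm
      push_cast
      have h3 : (A : ℝ) * (k : ℝ) ^ 2 * 2 ^ (k ^ 2) ≤ (A : ℝ) * ((k : ℝ) + 1) ^ 2 * 2 ^ (k ^ 2) := by
        have : (k : ℝ) ^ 2 ≤ ((k : ℝ) + 1) ^ 2 := by
          have : (0 : ℝ) ≤ k := by positivity
          nlinarith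
        gcongr
      have h4 : (1 : ℝ) ≤ ((k : ℝ) + 1) ^ 2 * 2 ^ (k ^ 2) := by nlinarith
      nlinarith
    calc 1 - lam k ^ (P.W k + 2 + 2 * P.N k) ≤ (P.W k + 2 + 2 * P.N k : ℕ) * (1 / X) := by linarith
      _ ≤ ((32 * A + 58) * ((k : ℝ) + 1) ^ 2 * 2 ^ (k ^ 2)) * (1 / X) := by
          apply mul_le_mul_of_nonneg_right (hg.trans hg2) (by positivity)
      _ = _ := by
          rw [hX2]
          field_simp
  -- the second term
  have h2 : ((2 * (P.rho k) + 1 : ℕ) : ℝ) ^ d * lam k ^ P.D k ≤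
      (49 * A) ^ d * ((k : ℝ) + 1) ^ 2 / 2 ^ (2 * k + 1) := by
    have hr : ((2 * (P.rho k) + 1 : ℕ) : ℝ) ≤ 49 * A * X ^ 2 := by
      have h3 : (P.rho k) ≤ 24 * Dm A (k + 1) := par_rho A (by omega) k
      have h4 : 1 ≤ Dm A (k + 1) := by
        have := Dm_succ (show 1 ≤ A by omega) k
        omega
      have h5 : 2 * P.rho k + 1 ≤ 49 * Dm A (k + 1) := by omega
      have h6 : ((2 * (P.rho k) + 1 : ℕ) : ℝ) ≤ ((49 * Dm A (k + 1) : ℕ) : ℝ) := by
        exact_mod_cast h5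
      refine h6.trans ?_
      unfold Dm
      push_cast
      rw [← hX]
      have h7 : (A : ℝ) * ((k : ℝ) + 1) ^ 2 * X ≤ A * X * X := by gcongr
      calc (49 : ℝ) * (A * ((k : ℝ) + 1) ^ 2 * X) ≤ 49 * (A * X * X) := by linarith
        _ = _ := by ring
    have hl : lam k ^ P.D k ≤ (1 / X) ^ A := by
      have h3 : lam k ≤ Real.exp (-(1 / X)) := by
        have := Real.one_sub_le_exp_neg (1 / X)
        unfold lam
        rwa [← hX]
      have h4 : lam k ^ P.D k ≤ Real.exp (-(1 / X)) ^ P.D k :=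
        pow_le_pow_left₀ (lam_pos k).le h3 _
      refine h4.trans ?_
      rw [← Real.exp_nat_mul]
      have h5 : (P.D k : ℝ) * -(1 / X) = ((A * (k + 1) ^ 2 : ℕ) : ℝ) * (-1) := by
        have : P.D k = A * (k + 1) ^ 2 * 2 ^ ((k + 1) ^ 2) := rfl
        rw [this]
        push_cast
        rw [← hX]
        field_simp
      rw [h5, Real.exp_nat_mul, mul_comm A, pow_mul, hX, one_div, ← inv_pow]
      apply pow_le_pow_left₀ (by positivity)
      apply pow_le_pow_left₀ (by positivity)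
      rw [Real.exp_neg]
      apply inv_anti₀ (by norm_num)
      have := Real.add_one_le_exp 1
      linarith
    have h5 : ((2 * (P.rho k) + 1 : ℕ) : ℝ) ^ d ≤ (49 * A) ^ d * (X ^ 2) ^ d := by
      rw [← mul_pow]
      exact pow_le_pow_left₀ (by positivity) hr d
    calc ((2 * (P.rho k) + 1 : ℕ) : ℝ) ^ d * lam k ^ P.D k
        ≤ ((49 * A) ^ d * (X ^ 2) ^ d) * (1 / X) ^ A :=
          mul_le_mul h5 hl (by have := lam_pos k; positivity) (by positivity)
      _ = (49 * A) ^ d * (1 / X ^ 2) := by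
          rw [hA]
          have h6 : (X ^ 2) ^ d * (1 / X) ^ (2 * d + 2) = 1 / X ^ 2 := by
            rw [← pow_mul, one_div, inv_pow, pow_add]
            field_simp
          rw [mul_assoc, h6]
      _ ≤ (49 * A) ^ d * (((k : ℝ) + 1) ^ 2 / 2 ^ (2 * k + 1)) := by
          apply mul_le_mul_of_nonneg_left _ (by positivity)
          rw [div_le_div_iff₀ (by positivity) (by positivity), one_mul]
          have h7 : (2 : ℝ) ^ (2 * k + 1) ≤ X := by
            rw [hX2]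
            have : (0 : ℝ) < 2 ^ (2 * k + 1) := by positivity
            nlinarith
          have h8 : (1 : ℝ) ≤ X := by linarith
          nlinarith
      _ = _ := by ring
  have h3 : qb d k = (32 * A + 58) * ((k : ℝ) + 1) ^ 2 / 2 ^ (2 * k + 1) +
      (49 * A) ^ d * ((k : ℝ) + 1) ^ 2 / 2 ^ (2 * k + 1) := by
    unfold qb
    ring
  rw [h3]
  exact add_le_add h1 h2

/-- the convergence of the series -/
theorem series (d : ℕ) {α : ℝ} (h0 : 0 < α) (h1 : α < 1) :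
    Summable fun m : ℕ => ((par (2 * d + 2) (by omega)).rho m : ℝ) ^ α *
      ∏ k ∈ Finset.range m, qb d k := by
  obtain ⟨A, hA⟩ : ∃ A, A = 2 * d + 2 := ⟨_, rfl⟩
  obtain ⟨C, hC⟩ : ∃ C : ℝ, C = 32 * (2 * d + 2 : ℕ) + 58 + (49 * (2 * d + 2 : ℕ)) ^ d := ⟨_, rfl⟩
  have hC0 : 0 < C := by rw [hC]; positivity
  obtain ⟨c, hc⟩ : ∃ c : ℕ → ℝ, c = fun m => (24 * (Dm (2 * d + 2) (m + 1) : ℝ)) ^ α *
      ∏ k ∈ Finset.range m, qb d k := ⟨_, rfl⟩
  have hDpos : ∀ m, 0 < (Dm (2 * d + 2) (m + 1) : ℝ) := by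
    intro m
    have := Dm_succ (show 1 ≤ 2 * d + 2 by omega) m
    exact_mod_cast (by omega : 0 < Dm (2 * d + 2) (m + 1))
  have hprod : ∀ m, 0 < ∏ k ∈ Finset.range m, qb d k := fun m =>
    Finset.prod_pos fun k _ => qb_pos d k
  have hcpos : ∀ m, 0 < c m := by
    intro m
    rw [hc]
    have := hDpos m
    have := hprod m
    positivity
  have hsum : Summable c := by
    obtain ⟨θ, hθ⟩ : ∃ θ : ℝ, θ = 4 ^ α / 4 := ⟨_, rfl⟩
    have hθ0 : 0 < θ := by rw [hθ]; positivity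
    have hθ1 : θ < 1 := by
      rw [hθ, div_lt_one (by norm_num)]
      calc (4 : ℝ) ^ α < 4 ^ (1 : ℝ) := Real.rpow_lt_rpow_of_exponent_lt (by norm_num) h1
        _ = 4 := Real.rpow_one _
    have hratio : ∀ m : ℕ, c (m + 1) ≤ (32 ^ α * C / 2 * ((m : ℝ) + 1) ^ 2 * θ ^ m) * c m := by
      intro m
      have e1 : (m + 1 + 1) ^ 2 = (m + 1) ^ 2 + (2 * m + 3) := by ring
      have hD : (24 * (Dm (2 * d + 2) (m + 1 + 1) : ℝ)) ≤
          (32 * 4 ^ m) * (24 * (Dm (2 * d + 2) (m + 1) : ℝ)) := by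
        unfold Dm
        have e2 : (2 : ℕ) ^ ((m + 1 + 1) ^ 2) = 2 ^ ((m + 1) ^ 2) * (8 * 4 ^ m) := by
          rw [e1, pow_add, pow_add 2 (2 * m) 3, pow_mul]; norm_num; ring
        rw [e2]
        push_cast
        have h3 : ((m : ℝ) + 1 + 1) ^ 2 ≤ 4 * ((m : ℝ) + 1) ^ 2 := by
          have : (0 : ℝ) ≤ m := by positivity
          nlinarith
        calc (24 : ℝ) * ((2 * d + 2) * ((m : ℝ) + 1 + 1) ^ 2 * (2 ^ ((m + 1) ^ 2) * (8 * 4 ^ m)))
            ≤ 24 * ((2 * d + 2) * (4 * ((m : ℝ) + 1) ^ 2) * (2 ^ ((m + 1) ^ 2) * (8 * 4 ^ m))) := by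
              gcongr
          _ = _ := by ring
      have hDα : (24 * (Dm (2 * d + 2) (m + 1 + 1) : ℝ)) ^ α ≤
          (32 ^ α * (4 ^ α) ^ m) * (24 * (Dm (2 * d + 2) (m + 1) : ℝ)) ^ α := by
        have h3 := Real.rpow_le_rpow (by have := hDpos (m + 1); positivity) hD h0.le
        refine h3.trans (le_of_eq ?_)
        rw [Real.mul_rpow (by positivity) (by have := hDpos m; positivity),
          Real.mul_rpow (by norm_num) (by positivity)]
        congr 2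
        rw [← Real.rpow_natCast, ← Real.rpow_natCast, ← Real.rpow_mul (by norm_num),
          ← Real.rpow_mul (by norm_num), mul_comm]
      have hq : qb d m = C * ((m : ℝ) + 1) ^ 2 / (2 * 4 ^ m) := by
        unfold qb
        rw [← hC]
        congr 1
        rw [pow_add, pow_mul]; norm_num; ring
      rw [hc]
      simp only
      rw [Finset.prod_range_succ, hq]
      have hp := hprod m
      have hd := hDpos m
      calc (24 * (Dm (2 * d + 2) (m + 1 + 1) : ℝ)) ^ α *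
            ((∏ k ∈ Finset.range m, qb d k) * (C * ((m : ℝ) + 1) ^ 2 / (2 * 4 ^ m)))
          ≤ ((32 ^ α * (4 ^ α) ^ m) * (24 * (Dm (2 * d + 2) (m + 1) : ℝ)) ^ α) *
            ((∏ k ∈ Finset.range m, qb d k) * (C * ((m : ℝ) + 1) ^ 2 / (2 * 4 ^ m))) := by
            apply mul_le_mul_of_nonneg_right hDα (by positivity)
        _ = _ := by
            rw [hθ, div_pow]
            field_simp
    have hlim : Tendsto (fun m : ℕ => 32 ^ α * C / 2 * ((m : ℝ) + 1) ^ 2 * θ ^ m) atTop (𝓝 0) := by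
      have h3 := tendsto_pow_const_mul_const_pow_of_abs_lt_one 2 (r := θ) (by
        rw [abs_of_pos hθ0]; exact hθ1)
      have h4 := (h3.comp (tendsto_add_atTop_nat 1)).const_mul (32 ^ α * C / 2 / θ)
      rw [mul_zero] at h4
      refine h4.congr ?_
      intro m
      simp only [Function.comp]
      rw [pow_succ θ m]
      push_cast
      field_simp
    have hev : ∀ᶠ m : ℕ in atTop, ‖c (m + 1)‖ ≤ 1 / 2 * ‖c m‖ := by
      filter_upwards [hlim.eventually (gt_mem_nhds (show (0 : ℝ) < 1 / 2 by norm_num))] with m hm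
      rw [Real.norm_of_nonneg (hcpos _).le, Real.norm_of_nonneg (hcpos _).le]
      refine (hratio m).trans ?_
      exact mul_le_mul_of_nonneg_right hm.le (hcpos m).le
    exact summable_of_ratio_norm_eventually_le (by norm_num) hev
  refine Summable.of_nonneg_of_le (fun m => ?_) (fun m => ?_) hsum
  · have := hprod m
    positivity
  · rw [hc]
    simp only
    apply mul_le_mul_of_nonneg_right _ (hprod m).le
    apply Real.rpow_le_rpow (by positivity) _ h0.le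
    have := par_rho (2 * d + 2) (by omega) m
    exact_mod_cast this

end Pool.Agent.H96C3
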