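import Pool.Agent.H96C3.Step

/-!
The composition of the interpolation steps and the coloring.
-/

set_option autoImplicit false

namespace Pool.Agent.H96C3

variable {d : ℕ}

/-- the scales -/
structure Par where
  /-- the radii of the clusters -/
  D : ℕ → ℕ
  /-- the widths of the transition zones -/
  W : ℕ → ℕ
  W0 : 56 ≤ W 0
  W1 : ∀ k, 2 * W k ≤ W (k + 1)
  W2 : ∀ k, 28 * D k ≤ W (k + 1)
  D1 : ∀ k, D k ≤ D (k + 1)

namespace Par

variable (P : Par)

/-- the range of the levels below `m` -/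
def N (m : ℕ) : ℕ := ∑ k ∈ Finset.range m, P.D k

/-- the range of the information used at level `m` -/
def rho (m : ℕ) : ℕ := P.D m + P.W m + 2 + 2 * P.N m

theorem N_succ (m : ℕ) : P.N (m + 1) = P.N m + P.D m := Finset.sum_range_succ _ _

theorem W_pos (m : ℕ) : 1 ≤ P.W m := by
  induction m with
  | zero => have := P.W0; omega
  | succ m ih => have := P.W1 m; omega

theorem rho_mono : Monotone P.rho := by
  apply monotone_nat_of_le_succ
  intro m
  unfold rho
  have h1 := P.W1 m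
  have h2 := P.D1 m
  rw [P.N_succ]
  omega

variable (δ : ℕ → V d → ℕ) (e : V d → ℤ)

/-- the composition of the steps `m - 1, …, 0` -/
noncomputable def run : ℕ → (V d → ℝ) → V d → ℝ
  | 0, f => f
  | m + 1, f => run m (stp (δ m) (P.W m) e f)

theorem run_zero (f : V d → ℝ) : P.run δ e 0 f = f := rfl

theorem run_succ (m : ℕ) (f : V d → ℝ) :
    P.run δ e (m + 1) f = P.run δ e m (stp (δ m) (P.W m) e f) := rfl

theorem run_add (m k : ℕ) (f : V d → ℝ) : ∃ g, P.run δ e (m + k) f = P.run δ e m g := by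
  induction k generalizing f with
  | zero => exact ⟨f, rfl⟩
  | succ k ih =>
    obtain ⟨g, hg⟩ := ih (stp (δ (m + k)) (P.W (m + k)) e f)
    exact ⟨g, by rw [← add_assoc, run_succ, hg]⟩

theorem run_shift (a b : ℤ) (m : ℕ) (f : V d → ℝ) :
    P.run δ (fun v => e v + a) m (fun v => f v + (3 * a + 6 * b)) =
      fun x => P.run δ e m f x + (3 * a + 6 * b) := by
  induction m generalizing f with
  | zero => rfl
  | succ m ih =>
    rw [run_succ, run_succ]
    have h : stp (δ m) (P.W m) (fun v => e v + a) (fun v => f v + (3 * a + 6 * b)) =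
        fun x => stp (δ m) (P.W m) e f x + (3 * a + 6 * b) := by
      funext x
      exact stp_shift _ _ _ _ _ _ _
    rw [h, ih]

variable {δ e}

theorem run_local (hD : ∀ k v, δ k v ≤ P.D k) (m r : ℕ) {f g : V d → ℝ} {x : V d}
    (h : ∀ y ∈ ball x (r + P.N m), f y = g y) :
    ∀ y ∈ ball x r, P.run δ e m f y = P.run δ e m g y := by
  induction m generalizing f g with
  | zero =>
    intro y hy
    exact h y (ball_mono (by omega) hy)
  | succ m ih =>
    rw [run_succ, run_succ]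
    apply ih
    apply stp_local (hD m)
    intro y hy
    apply h
    rw [P.N_succ]
    exact ball_mono (by omega) hy

theorem run_congr {δ' : ℕ → V d → ℕ} (hD : ∀ k v, δ k v ≤ P.D k) (hD' : ∀ k v, δ' k v ≤ P.D k)
    (m r : ℕ) (f : V d → ℝ) {x : V d}
    (h : ∀ k < m, ∀ w ∈ ball x (r + P.N k + P.D k + P.W k + 2), δ k w = δ' k w) :
    ∀ y ∈ ball x r, P.run δ e m f y = P.run δ' e m f y := by
  induction m generalizing f with
  | zero => intro y _; rfl
  | succ m ih =>
    intro y hy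
    rw [run_succ, run_succ, ih _ (fun k hk => h k (by omega)) y hy]
    refine P.run_local hD' m r ?_ y hy
    intro z hz
    refine stp_congr (hD m) (hD' m) (P.W_pos m) e f ?_
    intro w hw
    refine h m (by omega) w (ball_sub hz ?_ hw)
    omega

theorem run_lip (hD : ∀ k v, δ k v ≤ P.D k) (m : ℕ) {f : V d → ℝ}
    (hf : Lip f (28 / P.W m)) : Lip (P.run δ e m f) (28 / P.W 0) := by
  induction m generalizing f with
  | zero => exact hf
  | succ m ih =>
    rw [run_succ]
    apply ih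
    have h1 := stp_lip (hD m) (P.W_pos m) e (by positivity) hf
    refine fun x y hxy => (h1 x y hxy).trans ?_
    have hW : (0 : ℝ) < P.W m := by exact_mod_cast P.W_pos m
    have hW' : (0 : ℝ) < P.W (m + 1) := by exact_mod_cast P.W_pos (m + 1)
    have h2 : (28 : ℝ) / P.W (m + 1) ≤ 14 / P.W m := by
      rw [div_le_div_iff₀ hW' hW]
      have : (2 : ℝ) * P.W m ≤ P.W (m + 1) := by exact_mod_cast P.W1 m
      linarith
    have h3 : (28 : ℝ) / P.W (m + 1) * P.D m ≤ 1 := by
      rw [div_mul_eq_mul_div, div_le_one hW']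
      exact_mod_cast P.W2 m
    have h4 : ((12 : ℝ) + 2 * (28 / (P.W (m + 1) : ℝ)) * P.D m) / P.W m ≤ 14 / (P.W m : ℝ) := by
      apply div_le_div_of_nonneg_right _ hW.le
      linarith
    have h5 : (14 : ℝ) / P.W m + 14 / P.W m = 28 / P.W m := by ring
    linarith

variable (δ)

/-- `x` is deep inside a cluster of level `m` -/
def Good (m : ℕ) (x : V d) : Prop := ∃ v, Win (δ m) ((P.W m + 2 + 2 * P.N m : ℕ)) x v

variable {δ}

theorem Good.const {m : ℕ} {x : V d} (h : P.Good δ m x) (f : V d → ℝ) :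
    ∃ v, ∀ y ∈ ball x (P.N m), stp (δ m) (P.W m) e f y = tgt (e v) (f v) := by
  obtain ⟨v, hv⟩ := h
  refine ⟨v, fun y hy => stp_full (P.W_pos m) e f ?_⟩
  refine Win.move (n := P.N m) (hv.mono ?_) hy
  push_cast
  omega

/-- above a good level the value is determined modulo `6` -/
theorem Good.run_eq (hD : ∀ k v, δ k v ≤ P.D k) {m : ℕ} {x : V d} (h : P.Good δ m x)
    (f g : V d → ℝ) : ∃ j : ℤ, P.run δ e (m + 1) f x = P.run δ e (m + 1) g x + 6 * j := by
  obtain ⟨v, hv⟩ := h
  have key : ∀ f : V d → ℝ, ∃ j : ℤ, P.run δ e (m + 1) f x =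
      P.run δ e m (fun _ => 3 * (e v : ℝ)) x + 6 * j := by
    intro f
    have h1 : ∀ y ∈ ball x (0 + P.N m), stp (δ m) (P.W m) e f y = tgt (e v) (f v) := by
      intro y hy
      refine stp_full (P.W_pos m) e f ?_
      refine Win.move (n := P.N m) (hv.mono ?_) (by simpa [mem_ball] using hy)
      push_cast
      omega
    rw [run_succ, P.run_local hD m 0 h1 x (self_mem_ball _ _)]
    refine ⟨⌈(f v - 3 * e v) / 6⌉, ?_⟩
    have h2 := congrFun (P.run_shift δ e 0 ⌈(f v - 3 * e v) / 6⌉ m (fun _ => 3 * (e v : ℝ))) x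
    simp only [add_zero, Int.cast_zero, mul_zero, zero_add] at h2
    rw [← h2]
    rfl
  obtain ⟨j, hj⟩ := key f
  obtain ⟨j', hj'⟩ := key g
  refine ⟨j - j', ?_⟩
  rw [hj, hj']
  push_cast
  ring

theorem Good.run_eq' (hD : ∀ k v, δ k v ≤ P.D k) {m m' m'' : ℕ} {x : V d} (h : P.Good δ m x)
    (hm' : m < m') (hm'' : m < m'') (f g : V d → ℝ) :
    ∃ j : ℤ, P.run δ e m' f x = P.run δ e m'' g x + 6 * j := by
  obtain ⟨k, rfl⟩ := Nat.exists_eq_add_of_lt hm'
  obtain ⟨k', rfl⟩ := Nat.exists_eq_add_of_lt hm''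
  obtain ⟨f', hf'⟩ := P.run_add δ e (m + 1) k f
  obtain ⟨g', hg'⟩ := P.run_add δ e (m + 1) k' g
  have e1 : m + k + 1 = m + 1 + k := by ring
  have e2 : m + k' + 1 = m + 1 + k' := by ring
  rw [e1, e2, hf', hg']
  exact Good.run_eq P hD h f' g'

theorem good_congr {δ' : ℕ → V d → ℕ} (hD : ∀ k v, δ k v ≤ P.D k) (hD' : ∀ k v, δ' k v ≤ P.D k)
    {m : ℕ} {x : V d} (h : ∀ w ∈ ball x (P.rho m), δ m w = δ' m w) (hg : P.Good δ m x) :
    P.Good δ' m x := by
  obtain ⟨v, hv⟩ := hg
  refine ⟨v, (win_congr (hD m) (hD' m) (by omega) (fun w hw => h w ?_) v).1 hv⟩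
  refine ball_mono ?_ hw
  unfold rho
  omega

end Par

/-- from the phases to the colors -/
def q (H : ℤ) : Fin 3 :=
  if H % 6 = 0 ∨ H % 6 = 5 then 0 else if H % 6 = 3 ∨ H % 6 = 4 then 1 else 2

theorem q_add (H j : ℤ) : q (H + 6 * j) = q H := by
  unfold q
  rw [Int.add_mul_emod_self_left]

theorem q_ne {H K a : ℤ} (h : |H - K| ≤ 1) (ha : a % 2 = 1) : q H ≠ q (K + 3 * a) := by
  rw [abs_le] at h
  obtain ⟨h1, h2⟩ := h
  obtain ⟨c, rfl⟩ : ∃ c, a = 2 * c + 1 := ⟨a / 2, by omega⟩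
  have e1 : K + 3 * (2 * c + 1) = (K + 3) + 6 * c := by ring
  rw [e1, q_add]
  unfold q
  split_ifs
  all_goals first
    | decide
    | (exfalso; omega)

/-- the sum of the coordinates -/
def esum (v : V d) : ℤ := ∑ i, v i

theorem esum_sub (v w : V d) : esum (v - w) = esum v - esum w := by
  simp [esum, Finset.sum_sub_distrib]

theorem esum_odd {u : V d} (h : nrm u = 1) : (esum u) % 2 = 1 := by
  have h1 : ∀ s : Finset (Fin d), (∑ i ∈ s, u i) % 2 = ((∑ i ∈ s, (u i).natAbs : ℕ) : ℤ) % 2 := by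
    intro s
    classical
    induction s using Finset.induction_on with
    | empty => simp
    | insert i s hi ih =>
      rw [Finset.sum_insert hi, Finset.sum_insert hi]
      obtain ⟨A, hA⟩ : ∃ A : ℤ, A = ∑ i ∈ s, u i := ⟨_, rfl⟩
      obtain ⟨B, hB⟩ : ∃ B : ℕ, B = ∑ i ∈ s, (u i).natAbs := ⟨_, rfl⟩
      rw [← hA, ← hB] at ih ⊢
      omega
  have := h1 Finset.univ
  unfold esum
  unfold nrm at h
  rw [this, h]
  rfl

namespace Par

variable (P : Par)

open Classical in
/-- the color of `b` -/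
noncomputable def colAt (δ : ℕ → V d → ℕ) (b : V d) : Fin 3 :=
  if h : ∃ m, P.Good δ m b then
    q ⌊P.run δ (fun v => esum (v - b)) (Nat.find h + 1) (fun _ => 0) b⌋
  else 0

theorem colAt_eq {δ : ℕ → V d → ℕ} (hD : ∀ k v, δ k v ≤ P.D k) {m m' : ℕ} {b : V d}
    (h : P.Good δ m b) (hm : m < m') (f : V d → ℝ) :
    P.colAt δ b = q ⌊P.run δ (fun v => esum (v - b)) m' f b⌋ := by
  classical
  have hex : ∃ m, P.Good δ m b := ⟨m, h⟩
  unfold colAt
  rw [dif_pos hex]
  have h1 := Nat.find_spec hex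
  have h2 := Nat.find_min' hex h
  obtain ⟨j, hj⟩ := Good.run_eq' (e := fun v => esum (v - b)) P hD h1 (Nat.lt_succ_self _)
    (show Nat.find hex < m' by omega) (fun _ => (0 : ℝ)) f
  have h3 : P.run δ (fun v => esum (v - b)) (Nat.find hex + 1) (fun _ => 0) b =
      P.run δ (fun v => esum (v - b)) m' f b + ((6 * j : ℤ) : ℝ) := by
    rw [hj]; push_cast; ring
  rw [h3, Int.floor_add_intCast, q_add]

/-- adjacent vertices have different colors -/
theorem colAt_ne {δ : ℕ → V d → ℕ} (hD : ∀ k v, δ k v ≤ P.D k) {b b' : V d}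
    (h : ∃ m, P.Good δ m b) (h' : ∃ m, P.Good δ m b') (hb : nrm (b - b') = 1) :
    P.colAt δ b ≠ P.colAt δ b' := by
  obtain ⟨m, hm⟩ := h
  obtain ⟨m', hm'⟩ := h'
  set M := max m m' + 1 with hM
  set e : V d → ℤ := fun v => esum (v - b) with he
  have ha : (esum (b - b')) % 2 = 1 := esum_odd hb
  have he' : (fun v => esum (v - b')) = fun v => e v + esum (b - b') := by
    funext v
    simp only [he, esum_sub]
    ring
  rw [P.colAt_eq hD hm (show m < M by omega) (fun _ => (0 : ℝ)),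
    P.colAt_eq hD hm' (show m' < M by omega)
      (fun _ => (0 : ℝ) + (3 * (esum (b - b') : ℤ) + 6 * (0 : ℤ))), he']
  have h1 := congrFun (P.run_shift δ e (esum (b - b')) 0 M (fun _ => (0 : ℝ))) b'
  rw [h1]
  have h2 : (P.run δ e M (fun _ => (0 : ℝ)) b' + (3 * (esum (b - b') : ℤ) + 6 * ((0 : ℤ) : ℝ))) =
      P.run δ e M (fun _ => (0 : ℝ)) b' + ((3 * esum (b - b') : ℤ) : ℝ) := by
    push_cast; ring
  rw [h2, Int.floor_add_intCast]
  apply q_ne _ ha
  have hlip : Lip (P.run δ e M (fun _ => (0 : ℝ))) (28 / P.W 0) :=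
    P.run_lip hD M (Lip.const _ _ (by positivity))
  have h3 := hlip b b' hb
  have h4 : (28 : ℝ) / P.W 0 ≤ 1 / 2 := by
    have hW : (56 : ℝ) ≤ P.W 0 := by exact_mod_cast P.W0
    rw [div_le_div_iff₀ (by linarith) (by norm_num)]
    linarith
  have h5 := h3.trans h4
  rw [abs_le] at h5 ⊢
  set A := P.run δ e M (fun _ => (0 : ℝ)) b
  set B := P.run δ e M (fun _ => (0 : ℝ)) b'
  have a1 := Int.floor_le A
  have a2 := Int.lt_floor_add_one A
  have b1 := Int.floor_le B
  have b2 := Int.lt_floor_add_one B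
  constructor
  · have : (⌊B⌋ : ℝ) < ⌊A⌋ + 2 := by linarith
    have : ⌊B⌋ < ⌊A⌋ + 2 := by exact_mod_cast this
    omega
  · have : (⌊A⌋ : ℝ) < ⌊B⌋ + 2 := by linarith
    have : ⌊A⌋ < ⌊B⌋ + 2 := by exact_mod_cast this
    omega

/-- the color is determined by the labels at distance at most `rho m` if the level `m` is good -/
theorem colAt_congr {δ δ' : ℕ → V d → ℕ} (hD : ∀ k v, δ k v ≤ P.D k)
    (hD' : ∀ k v, δ' k v ≤ P.D k) {m : ℕ} {b : V d} (hg : P.Good δ m b)
    (h : ∀ k ≤ m, ∀ w ∈ ball b (P.rho m), δ k w = δ' k w) : P.colAt δ b = P.colAt δ' b := by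
  have hg' : P.Good δ' m b := P.good_congr hD hD' (h m le_rfl) hg
  rw [P.colAt_eq hD hg (Nat.lt_succ_self m) (fun _ => (0 : ℝ)),
    P.colAt_eq hD' hg' (Nat.lt_succ_self m) (fun _ => (0 : ℝ))]
  congr 2
  refine P.run_congr hD hD' (m + 1) 0 _ ?_ b (self_mem_ball _ _)
  intro k hk w hw
  refine h k (by omega) w (ball_mono ?_ hw)
  have h1 := P.rho_mono (show k ≤ m by omega)
  have h2 : 0 + P.N k + P.D k + P.W k + 2 ≤ P.rho k := by unfold rho; omega
  omega

end Par

/-! ### Translations -/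

/-- translation of functions -/
def tr {α : Type*} (b : V d) (f : V d → α) : V d → α := fun x => f (x + b)

theorem win_tr (δ : V d → ℕ) (g : ℤ) (b x v : V d) :
    Win (tr b δ) g x v ↔ Win δ g (x + b) (v + b) := by
  unfold Win tr
  constructor
  · intro h w hw
    have := h (w - b) (by rintro rfl; simp at hw)
    rw [sub_add_cancel] at this
    have e1 : x - (w - b) = x + b - w := by abel
    have e2 : x + b - (v + b) = x - v := by abel
    rw [e1] at this
    rw [e2]
    exact this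
  · intro h w hw
    have := h (w + b) (by simpa using hw)
    have e1 : x + b - (w + b) = x - w := by abel
    have e2 : x + b - (v + b) = x - v := by abel
    rw [e1, e2] at this
    exact this

theorem cen_tr (δ : V d → ℕ) (b x : V d) : cen (tr b δ) x + b = cen δ (x + b) := by
  by_cases hex : ∃ v, Win δ 3 (x + b) v
  · obtain ⟨v, hv⟩ := hex
    rw [cen_eq hv]
    have : Win (tr b δ) 3 x (v - b) := by
      rw [win_tr, sub_add_cancel]; exact hv
    rw [cen_eq this, sub_add_cancel]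
  · have hex' : ¬ ∃ v, Win (tr b δ) 3 x v := by
      rintro ⟨v, hv⟩
      exact hex ⟨v + b, (win_tr _ _ _ _ _).1 hv⟩
    unfold cen
    rw [dif_neg hex, dif_neg hex']

theorem cnt_tr (δ : V d → ℕ) (W : ℕ) (b x : V d) : cnt (tr b δ) W x = cnt δ W (x + b) := by
  classical
  unfold cnt
  congr 1
  apply Finset.filter_congr
  intro j _
  rw [win_tr, cen_tr]

theorem stp_tr (δ : V d → ℕ) (W : ℕ) (b : V d) (e : V d → ℤ) (f : V d → ℝ) :
    stp (tr b δ) W (tr b e) (tr b f) = tr b (stp δ W e f) := by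
  funext x
  unfold stp
  rw [cnt_tr]
  unfold tr
  simp only
  have : cen (fun x => δ (x + b)) x + b = cen δ (x + b) := cen_tr δ b x
  rw [this]

namespace Par

variable (P : Par)

theorem run_tr (δ : ℕ → V d → ℕ) (b : V d) (e : V d → ℤ) (m : ℕ) (f : V d → ℝ) :
    P.run (fun k => tr b (δ k)) (tr b e) m (tr b f) = tr b (P.run δ e m f) := by
  induction m generalizing f with
  | zero => rfl
  | succ m ih => rw [run_succ, run_succ, stp_tr, ih]

theorem good_tr (δ : ℕ → V d → ℕ) (b : V d) (m : ℕ) (x : V d) :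
    P.Good (fun k => tr b (δ k)) m x ↔ P.Good δ m (x + b) := by
  unfold Good
  constructor
  · rintro ⟨v, hv⟩
    exact ⟨v + b, (win_tr _ _ _ _ _).1 hv⟩
  · rintro ⟨v, hv⟩
    exact ⟨v - b, by rw [win_tr, sub_add_cancel]; exact hv⟩

theorem colAt_tr (δ : ℕ → V d → ℕ) (b x : V d) :
    P.colAt (fun k => tr b (δ k)) x = P.colAt δ (x + b) := by
  classical
  unfold colAt
  have hiff : ∀ m, P.Good (fun k => tr b (δ k)) m x ↔ P.Good δ m (x + b) := fun m =>
    P.good_tr δ b m x
  by_cases hex : ∃ m, P.Good δ m (x + b)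
  · have hex' : ∃ m, P.Good (fun k => tr b (δ k)) m x := by
      obtain ⟨m, hm⟩ := hex
      exact ⟨m, (hiff m).2 hm⟩
    rw [dif_pos hex, dif_pos hex']
    have hfind : Nat.find hex' = Nat.find hex := Nat.find_congr' fun {n} => hiff n
    rw [hfind]
    have he : (fun v => esum (v - x)) = tr b (fun v => esum (v - (x + b))) := by
      funext v
      unfold tr
      congr 1
      abel
    have := congrFun (P.run_tr δ b (fun v => esum (v - (x + b))) (Nat.find hex + 1)
      (fun _ => (0 : ℝ))) x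
    rw [he]
    have e2 : (tr b fun _ : V d => (0 : ℝ)) = fun _ => (0 : ℝ) := rfl
    rw [e2] at this
    rw [this]
    rfl
  · have hex' : ¬ ∃ m, P.Good (fun k => tr b (δ k)) m x := by
      rintro ⟨m, hm⟩
      exact hex ⟨m, (hiff m).1 hm⟩
    rw [dif_neg hex, dif_neg hex']

end Par

end Pool.Agent.H96C3
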