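import Pool.Agent.H96C3.Basic

/-!
One step of the hierarchical interpolation of phases.
-/

set_option autoImplicit false

namespace Pool.Agent.H96C3

variable {d : ℕ}

/-- `v` wins at `x` with margin `g`: the value `δ v - |x - v|` exceeds all the other values by at
least `g` -/
def Win (δ : V d → ℕ) (g : ℤ) (x v : V d) : Prop :=
  ∀ w, w ≠ v → (δ w : ℤ) - nrm (x - w) + g ≤ (δ v : ℤ) - nrm (x - v)

theorem Win.mono {δ : V d → ℕ} {g g' : ℤ} {x v : V d} (h : Win δ g x v) (hg : g' ≤ g) :
    Win δ g' x v := fun w hw => by have := h w hw; omega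

theorem Win.move {δ : V d → ℕ} {g : ℤ} {x y v : V d} {n : ℕ} (h : Win δ (g + 2 * n) x v)
    (hn : nrm (x - y) ≤ n) : Win δ g y v := by
  intro w hw
  have h1 := h w hw
  have h2 := nrm_tri x y w
  have h3 := nrm_tri y x v
  rw [nrm_sub_comm y x] at h3
  omega

theorem Win.unique {δ : V d → ℕ} {g g' : ℤ} {x v v' : V d} (h : Win δ g x v) (h' : Win δ g' x v')
    (hg : 0 < g + g') : v = v' := by
  by_contra hne
  have h1 := h v' (Ne.symm hne)
  have h2 := h' v hne
  omega

/-- the winner is close -/
theorem Win.dist_le {δ : V d → ℕ} {g : ℤ} {x v : V d} {D : ℕ} (hD : ∀ v, δ v ≤ D)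
    (hg : 0 ≤ g) (h : Win δ g x v) : (nrm (x - v) : ℤ) + (if x = v then 0 else g) ≤ D := by
  by_cases hxv : x = v
  · subst hxv
    simp
  · have h1 := h x hxv
    rw [sub_self, nrm_zero] at h1
    have := hD v
    rw [if_neg hxv]
    push_cast at h1
    omega

/-- `Win` depends on the labels in a finite ball -/
theorem win_congr {δ δ' : V d → ℕ} {D : ℕ} (hD : ∀ v, δ v ≤ D) (hD' : ∀ v, δ' v ≤ D) {g : ℕ}
    (hg : 1 ≤ g) {x : V d} (h : ∀ w ∈ ball x (D + g), δ w = δ' w) (v : V d) :
    Win δ g x v ↔ Win δ' g x v := by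
  have key : ∀ δ δ' : V d → ℕ, (∀ v, δ v ≤ D) → (∀ v, δ' v ≤ D) →
      (∀ w ∈ ball x (D + g), δ w = δ' w) → Win δ g x v → Win δ' g x v := by
    intro δ δ' hD hD' h hW w hw
    have hd := hW.dist_le hD (by positivity)
    have hv : v ∈ ball x (D + g) := by
      rw [mem_ball]
      split_ifs at hd <;> omega
    have h0 : (0 : ℤ) ≤ (δ v : ℤ) - nrm (x - v) := by
      by_cases hxv : x = v
      · subst hxv; simp
      · have := hW x hxv
        rw [sub_self, nrm_zero] at this
        push_cast at this
        omega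
    rw [← h v hv]
    by_cases hwb : w ∈ ball x (D + g)
    · rw [← h w hwb]; exact hW w hw
    · rw [mem_ball, not_le] at hwb
      have := hD' w
      omega
  exact ⟨key δ δ' hD hD' h, key δ' δ hD' hD fun w hw => (h w hw).symm⟩

open Classical in
/-- the centre of the cluster of `x` -/
noncomputable def cen (δ : V d → ℕ) (x : V d) : V d :=
  if h : ∃ v, Win δ 3 x v then h.choose else x

theorem cen_eq {δ : V d → ℕ} {x v : V d} (h : Win δ 3 x v) : cen δ x = v := by
  unfold cen
  have hex : ∃ v, Win δ 3 x v := ⟨v, h⟩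
  rw [dif_pos hex]
  exact hex.choose_spec.unique h (by norm_num)

theorem cen_dist {δ : V d → ℕ} {D : ℕ} (hD : ∀ v, δ v ≤ D) (x : V d) :
    cen δ x ∈ ball x D := by
  by_cases hex : ∃ v, Win δ 3 x v
  · obtain ⟨v, hv⟩ := hex
    rw [cen_eq hv, mem_ball]
    have := hv.dist_le hD (by norm_num)
    split_ifs at this <;> omega
  · unfold cen
    rw [dif_neg hex]
    exact self_mem_ball _ _

open Classical in
/-- `W` times the weight of the cluster at `x` -/
noncomputable def cnt (δ : V d → ℕ) (W : ℕ) (x : V d) : ℕ :=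
  ((Finset.Icc 1 W).filter (fun j : ℕ => Win δ (j + 2) x (cen δ x))).card

theorem cnt_le (δ : V d → ℕ) (W : ℕ) (x : V d) : cnt δ W x ≤ W := by
  classical
  unfold cnt
  refine (Finset.card_filter_le _ _).trans ?_
  simp

theorem cnt_pos {δ : V d → ℕ} {W : ℕ} {x : V d} (h : 0 < cnt δ W x) :
    Win δ 3 x (cen δ x) := by
  classical
  unfold cnt at h
  obtain ⟨j, hj⟩ := Finset.card_pos.1 h
  rw [Finset.mem_filter, Finset.mem_Icc] at hj
  exact hj.2.mono (by omega)

theorem cnt_full {δ : V d → ℕ} {W : ℕ} (hW : 1 ≤ W) {x v : V d} (h : Win δ (W + 2) x v) :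
    cen δ x = v ∧ cnt δ W x = W := by
  classical
  have h1 : cen δ x = v := cen_eq (h.mono (by omega))
  refine ⟨h1, ?_⟩
  unfold cnt
  rw [h1, Finset.filter_true_of_mem]
  · simp
  · intro j hj
    rw [Finset.mem_Icc] at hj
    exact h.mono (by omega)

/-- the weights vary slowly -/
theorem cnt_step {δ : V d → ℕ} {W : ℕ} {x y v : V d} (hxy : nrm (x - y) = 1)
    (hx : cen δ x = v) (hy : cen δ y = v) : cnt δ W x ≤ cnt δ W y + 2 := by
  classical
  unfold cnt
  rw [hx, hy]
  have h1 : (Finset.Icc 1 W).filter (fun j : ℕ => Win δ (j + 2) x v) ⊆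
      ({1, 2} : Finset ℕ) ∪
        ((Finset.Icc 1 W).filter (fun j : ℕ => Win δ (j + 2) y v)).image (· + 2) := by
    intro j hj
    rw [Finset.mem_filter, Finset.mem_Icc] at hj
    rw [Finset.mem_union, Finset.mem_image]
    by_cases hj2 : j ≤ 2
    · left
      have : j = 1 ∨ j = 2 := by omega
      simpa using this
    · right
      refine ⟨j - 2, ?_, by omega⟩
      rw [Finset.mem_filter, Finset.mem_Icc]
      refine ⟨by omega, ?_⟩
      refine Win.move (n := 1) (hj.2.mono ?_) hxy.le
      push_cast [Nat.cast_sub (show 2 ≤ j by omega)]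
      omega
  refine (Finset.card_le_card h1).trans ?_
  refine (Finset.card_union_le _ _).trans ?_
  have h2 : ({1, 2} : Finset ℕ).card = 2 := rfl
  have h3 := Finset.card_image_le
    (s := (Finset.Icc 1 W).filter (fun j : ℕ => Win δ (j + 2) y v)) (f := (· + 2))
  omega

/-- the phase of a cluster: a number congruent to `3 e` modulo `6`, above `t` and close to `t` -/
noncomputable def tgt (e : ℤ) (t : ℝ) : ℝ := 3 * e + 6 * ⌈(t - 3 * e) / 6⌉

theorem tgt_ge (e : ℤ) (t : ℝ) : t ≤ tgt e t := by
  unfold tgt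
  have := Int.le_ceil ((t - 3 * e) / 6)
  rw [div_le_iff₀ (by norm_num)] at this
  linarith

theorem tgt_le (e : ℤ) (t : ℝ) : tgt e t ≤ t + 6 := by
  unfold tgt
  have := (Int.ceil_lt_add_one ((t - 3 * e) / 6)).le
  rw [← sub_le_iff_le_add, le_div_iff₀ (by norm_num)] at this
  linarith

/-- the phases are shifted by the constant `3 a + 6 b` -/
theorem tgt_shift (e : ℤ) (t : ℝ) (a b : ℤ) :
    tgt (e + a) (t + (3 * a + 6 * b)) = tgt e t + (3 * a + 6 * b) := by
  unfold tgt
  have h : (t + (3 * a + 6 * b) - 3 * ((e + a : ℤ) : ℝ)) / 6 = (t - 3 * e) / 6 + b := by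
    push_cast; ring
  rw [h, Int.ceil_add_intCast]
  push_cast
  ring

/-- one step of the interpolation -/
noncomputable def stp (δ : V d → ℕ) (W : ℕ) (e : V d → ℤ) (f : V d → ℝ) (x : V d) : ℝ :=
  f x + (cnt δ W x : ℝ) / W * (tgt (e (cen δ x)) (f (cen δ x)) - f x)

theorem stp_shift (δ : V d → ℕ) (W : ℕ) (e : V d → ℤ) (f : V d → ℝ) (a b : ℤ) (x : V d) :
    stp δ W (fun v => e v + a) (fun v => f v + (3 * a + 6 * b)) x =
      stp δ W e f x + (3 * a + 6 * b) := by
  unfold stp
  rw [tgt_shift]
  ring

theorem stp_full {δ : V d → ℕ} {W : ℕ} (hW : 1 ≤ W) (e : V d → ℤ) (f : V d → ℝ) {x v : V d}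
    (h : Win δ (W + 2) x v) : stp δ W e f x = tgt (e v) (f v) := by
  obtain ⟨h1, h2⟩ := cnt_full hW h
  unfold stp
  rw [h1, h2, div_self (by exact_mod_cast (by omega : W ≠ 0))]
  ring

/-- the Lipschitz constant after one step -/
theorem stp_lip {δ : V d → ℕ} {D W : ℕ} (hD : ∀ v, δ v ≤ D) (hW : 1 ≤ W) (e : V d → ℤ)
    {f : V d → ℝ} {η : ℝ} (hη : 0 ≤ η) (hf : Lip f η) :
    Lip (stp δ W e f) (η + (12 + 2 * η * D) / W) := by
  have hW0 : (0 : ℝ) < W := by exact_mod_cast hW
  -- the case in which `x` has positive weight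
  have key : ∀ x y : V d, nrm (x - y) = 1 → 0 < cnt δ W x →
      |stp δ W e f x - stp δ W e f y| ≤ η + (12 + 2 * η * D) / W := by
    intro x y hxy hx
    have h3 := cnt_pos hx
    set v := cen δ x with hv
    have h1 : Win δ 1 y v := Win.move (n := 1) (h3.mono (by norm_num)) hxy.le
    -- formula at `y`
    have hy : ∃ c : ℕ, c = cnt δ W y ∧ stp δ W e f y = f y + (c : ℝ) / W * (tgt (e v) (f v) - f y) ∧
        c ≤ cnt δ W x + 2 ∧ cnt δ W x ≤ c + 2 := by
      rcases Nat.eq_zero_or_pos (cnt δ W y) with h0 | h0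
      · refine ⟨0, h0.symm, ?_, by omega, ?_⟩
        · unfold stp
          rw [h0]; simp
        · -- `cnt x ≤ 2`
          classical
          by_contra hc
          push Not at hc
          have : ∃ j ∈ (Finset.Icc 1 W).filter (fun j : ℕ => Win δ (j + 2) x (cen δ x)), 3 ≤ j := by
            by_contra hno
            push Not at hno
            have hsub : (Finset.Icc 1 W).filter (fun j : ℕ => Win δ (j + 2) x (cen δ x)) ⊆
                {1, 2} := by
              intro j hj
              have hj' := hno j hj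
              rw [Finset.mem_filter, Finset.mem_Icc] at hj
              have : j = 1 ∨ j = 2 := by omega
              simpa using this
            have h5 := Finset.card_le_card hsub
            have h6 : ({1, 2} : Finset ℕ).card = 2 := rfl
            have h7 : cnt δ W x = ((Finset.Icc 1 W).filter
              (fun j : ℕ => Win δ (j + 2) x (cen δ x))).card := by unfold cnt; congr
            omega
          obtain ⟨j, hj, hj3⟩ := this
          rw [Finset.mem_filter, Finset.mem_Icc] at hj
          have hwy : Win δ 3 y v := Win.move (n := 1) (hj.2.mono (by omega)) hxy.le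
          have hcy := cen_eq hwy
          have : 1 ∈ (Finset.Icc 1 W).filter (fun j : ℕ => Win δ (j + 2) y (cen δ y)) := by
            rw [Finset.mem_filter, Finset.mem_Icc, hcy]
            exact ⟨⟨le_rfl, hW⟩, hwy.mono (by norm_num)⟩
          have h8 := Finset.card_pos.2 ⟨_, this⟩
          have h9 : cnt δ W y = ((Finset.Icc 1 W).filter
              (fun j : ℕ => Win δ (j + 2) y (cen δ y))).card := by unfold cnt; congr
          omega
      · have h4 := cnt_pos h0
        have h5 : cen δ y = v := h4.unique h1 (by norm_num)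
        refine ⟨cnt δ W y, rfl, ?_, ?_, ?_⟩
        · unfold stp; rw [h5]
        · exact cnt_step (by rw [nrm_sub_comm]; exact hxy) h5 hv.symm
        · exact cnt_step hxy hv.symm h5
    obtain ⟨c, hc, hsy, hc1, hc2⟩ := hy
    have hsx : stp δ W e f x = f x + (cnt δ W x : ℝ) / W * (tgt (e v) (f v) - f x) := rfl
    rw [hsx, hsy]
    set T := tgt (e v) (f v)
    set a : ℝ := (cnt δ W x : ℝ) / W
    set b : ℝ := (c : ℝ) / W
    have e1 : f x + a * (T - f x) - (f y + b * (T - f y)) =
        (1 - a) * (f x - f y) + (a - b) * (T - f y) := by ring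
    rw [e1]
    have ha0 : 0 ≤ a := by positivity
    have ha1 : a ≤ 1 := by
      rw [div_le_one hW0]; exact_mod_cast cnt_le δ W x
    have hab : |a - b| ≤ 2 / W := by
      rw [← sub_div, abs_div, abs_of_pos hW0]
      apply div_le_div_of_nonneg_right _ hW0.le
      rw [abs_le]
      have q1 : (c : ℝ) ≤ cnt δ W x + 2 := by exact_mod_cast hc1
      have q2 : (cnt δ W x : ℝ) ≤ c + 2 := by exact_mod_cast hc2
      constructor <;> linarith
    have hT : |T - f y| ≤ 6 + η * D := by
      have t1 : |T - f v| ≤ 6 := by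
        rw [abs_le]
        have := tgt_ge (e v) (f v)
        have := tgt_le (e v) (f v)
        constructor <;> linarith
      have t2 := hf.dist v y
      have t3 : (nrm (v - y) : ℝ) ≤ D := by
        have q := h3.dist_le hD (by norm_num)
        have q2 := nrm_tri v x y
        rw [nrm_sub_comm v x] at q2
        by_cases hxv : x = v
        · -- then `D ≥ 1`
          rw [← hxv]
          rw [hxy]
          have hne : ∃ w, w ≠ x := ⟨y, by
            rintro rfl
            rw [sub_self, nrm_zero] at hxy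
            omega⟩
          have q3 := h3 y (by
            rw [← hxv]
            rintro rfl
            rw [sub_self, nrm_zero] at hxy
            omega)
          rw [← hxv, sub_self, nrm_zero, hxy] at q3
          have q4 := hD x
          have : 1 ≤ D := by push_cast at q3; omega
          exact_mod_cast this
        · rw [if_neg hxv] at q
          have : nrm (v - y) ≤ D := by omega
          exact_mod_cast this
      have t4 : η * (nrm (v - y) : ℝ) ≤ η * D := mul_le_mul_of_nonneg_left t3 hη
      have t5 := abs_sub_le T (f v) (f y)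
      linarith
    have s1 : |(1 - a) * (f x - f y)| ≤ η := by
      rw [abs_mul, abs_of_nonneg (by linarith)]
      have := hf x y hxy
      calc (1 - a) * |f x - f y| ≤ 1 * η :=
            mul_le_mul (by linarith) this (abs_nonneg _) zero_le_one
        _ = η := one_mul _
    have s2 : |(a - b) * (T - f y)| ≤ (12 + 2 * η * D) / W := by
      rw [abs_mul]
      calc |a - b| * |T - f y| ≤ 2 / W * (6 + η * D) :=
            mul_le_mul hab hT (abs_nonneg _) (by positivity)
        _ = (12 + 2 * η * D) / W := by ring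
    exact (abs_add_le _ _).trans (add_le_add s1 s2)
  intro x y hxy
  rcases Nat.eq_zero_or_pos (cnt δ W x) with hx | hx
  · rcases Nat.eq_zero_or_pos (cnt δ W y) with hy | hy
    · have e1 : stp δ W e f x = f x := by unfold stp; rw [hx]; simp
      have e2 : stp δ W e f y = f y := by unfold stp; rw [hy]; simp
      rw [e1, e2]
      have := hf x y hxy
      have : 0 ≤ (12 + 2 * η * D) / W := by positivity
      linarith
    · rw [abs_sub_comm]
      exact key y x (by rw [nrm_sub_comm]; exact hxy) hy
  · exact key x y hxy hx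

/-- locality of the step in the function -/
theorem stp_local {δ : V d → ℕ} {D W : ℕ} (hD : ∀ v, δ v ≤ D) (e : V d → ℤ) {f g : V d → ℝ}
    {x : V d} {r : ℕ} (h : ∀ y ∈ ball x (r + D), f y = g y) :
    ∀ y ∈ ball x r, stp δ W e f y = stp δ W e g y := by
  intro y hy
  unfold stp
  rw [h y (ball_mono (by omega) hy), h (cen δ y) (ball_sub hy le_rfl (cen_dist hD y))]

/-- locality of the step in the labels -/
theorem stp_congr {δ δ' : V d → ℕ} {D W : ℕ} (hD : ∀ v, δ v ≤ D) (hD' : ∀ v, δ' v ≤ D)
    (hW : 1 ≤ W) (e : V d → ℤ) (f : V d → ℝ) {x : V d}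
    (h : ∀ w ∈ ball x (D + W + 2), δ w = δ' w) : stp δ W e f x = stp δ' W e f x := by
  classical
  have hw : ∀ g : ℕ, 1 ≤ g → g ≤ W + 2 → ∀ v, Win δ g x v ↔ Win δ' g x v := by
    intro g hg hg2 v
    exact win_congr hD hD' hg (fun w hw => h w (ball_mono (by omega) hw)) v
  have hc : cen δ x = cen δ' x := by
    by_cases hex : ∃ v, Win δ 3 x v
    · obtain ⟨v, hv⟩ := hex
      rw [cen_eq hv]
      have := (hw 3 (by norm_num) (by omega) v).1 (by exact_mod_cast hv)
      rw [cen_eq (by exact_mod_cast this)]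
    · have hex' : ¬ ∃ v, Win δ' 3 x v := by
        rintro ⟨v, hv⟩
        exact hex ⟨v, by exact_mod_cast (hw 3 (by norm_num) (by omega) v).2 (by exact_mod_cast hv)⟩
      unfold cen
      rw [dif_neg hex, dif_neg hex']
  have hn : cnt δ W x = cnt δ' W x := by
    unfold cnt
    rw [hc]
    congr 1
    apply Finset.filter_congr
    intro j hj
    rw [Finset.mem_Icc] at hj
    have := hw (j + 2) (by omega) (by omega) (cen δ' x)
    push_cast at this
    exact this
  unfold stp
  rw [hc, hn]

end Pool.Agent.H96C3
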