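import Pool.Agent.H96C3.Geo

/-!
The law of the labels, and the independence of the levels.
-/

set_option autoImplicit false

open MeasureTheory ProbabilityTheory
open scoped ENNReal

namespace Pool.Agent.H96C3

variable {d : ℕ}

/-- exchanging the two indices of a family -/
theorem map_swap {ι κ X : Type*} [MeasurableSpace X] (μ : Measure X) [IsProbabilityMeasure μ] :
    (Measure.infinitePi fun _ : ι => Measure.infinitePi fun _ : κ => μ).map
      (fun ω k v => ω v k) = Measure.infinitePi fun _ : κ => Measure.infinitePi fun _ : ι => μ := by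
  have h1 := Measure.infinitePi_map_curry_symm (fun (_ : ι) (_ : κ) => μ)
  have h2 := Measure.infinitePi_map_piCongrLeft (fun _ : κ × ι => μ) (Equiv.prodComm ι κ)
  have h3 := Measure.infinitePi_map_curry (fun (_ : κ) (_ : ι) => μ)
  rw [← h3, ← h2, ← h1, Measure.map_map (by fun_prop) (by fun_prop),
    Measure.map_map (by fun_prop) (by fun_prop)]
  rfl

/-- the law of the labels of one level -/
noncomputable def lawV (d : ℕ) : Measure (V d → unitInterval) := Measure.infinitePi fun _ => volume

/-- the law of the labels -/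
noncomputable def lawF (d : ℕ) : Measure (V d → ℕ → unitInterval) :=
  Measure.infinitePi fun _ => Measure.infinitePi fun _ => volume

instance : IsProbabilityMeasure (lawV d) := by unfold lawV; infer_instance
instance : IsProbabilityMeasure (lawF d) := by unfold lawF; infer_instance

theorem lawF_swap : (lawF d).map (fun ω k v => ω v k) = Measure.infinitePi fun _ : ℕ => lawV d :=
  map_swap volume

/-- the levels are independent -/
theorem levels (B : ℕ → Set (V d → unitInterval)) (hB : ∀ k, MeasurableSet (B k)) (m : ℕ) :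
    lawF d {ω | ∀ k < m, (fun v => ω v k) ∈ B k} = ∏ k ∈ Finset.range m, lawV d (B k) := by
  have h1 := Measure.infinitePi_pi (fun _ : ℕ => lawV d) (s := Finset.range m) (t := B)
    (fun k _ => hB k)
  rw [← lawF_swap, Measure.map_apply] at h1
  · rw [← h1]
    congr 1
    ext ω
    simp only [Set.mem_setOf_eq, Set.mem_preimage, Set.mem_pi, Finset.coe_range, Set.mem_Iio]
  · fun_prop
  · exact MeasurableSet.pi (Finset.countable_toSet _) fun k _ => hB k

/-- the discrete labels -/
noncomputable def lab (P : Par) (lam : ℕ → ℝ) (ω : V d → ℕ → unitInterval) (k : ℕ) (v : V d) : ℕ :=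
  geo (lam k) (P.D k) (ω v k)

theorem lab_le (P : Par) (lam : ℕ → ℝ) (ω : V d → ℕ → unitInterval) (k : ℕ) (v : V d) :
    lab P lam ω k v ≤ P.D k := geo_le _ _ _

/-- winning is a measurable event -/
theorem win_meas {Ω : Type*} [MeasurableSpace Ω] {δ : V d → Ω → ℕ} (hm : ∀ v, Measurable (δ v))
    (g : ℤ) (x : V d) : MeasurableSet {ω | ∃ v, Win (fun v => δ v ω) g x v} := by
  have : {ω | ∃ v, Win (fun v => δ v ω) g x v} = ⋃ v, ⋂ w, {ω | w ≠ v →
      (δ w ω : ℤ) - nrm (x - w) + g ≤ (δ v ω : ℤ) - nrm (x - v)} := by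
    ext ω
    simp only [Win, Set.mem_setOf_eq, Set.mem_iUnion, Set.mem_iInter]
  rw [this]
  refine MeasurableSet.iUnion fun v => MeasurableSet.iInter fun w => ?_
  have h1 : Measurable fun ω => ((δ w ω, δ v ω) : ℕ × ℕ) := (hm w).prodMk (hm v)
  exact h1 (MeasurableSet.of_discrete (s := {p : ℕ × ℕ | w ≠ v →
    (p.1 : ℤ) - nrm (x - w) + g ≤ (p.2 : ℤ) - nrm (x - v)}))

/-- the event of one level that `0` is not good -/
def Bad (P : Par) (lam : ℕ → ℝ) (k : ℕ) : Set (V d → unitInterval) :=
  {U | ¬ ∃ v, Win (fun v => geo (lam k) (P.D k) (U v)) ((P.W k + 2 + 2 * P.N k : ℕ) : ℤ) 0 v}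

theorem bad_meas (P : Par) {lam : ℕ → ℝ} (h0 : ∀ k, 0 < lam k) (h1 : ∀ k, lam k < 1) (k : ℕ) :
    MeasurableSet (Bad (d := d) P lam k) := by
  refine (win_meas (δ := fun v (U : V d → unitInterval) => geo (lam k) (P.D k) (U v))
    (fun v => (geo_meas (h0 k) (h1 k) _).comp (measurable_pi_apply v)) _ _).compl

/-- the probability that `0` is not good for one level -/
theorem bad_prob (P : Par) {lam : ℕ → ℝ} (h0 : ∀ k, 0 < lam k) (h1 : ∀ k, lam k < 1) (k : ℕ) :
    lawV d (Bad P lam k) ≤ ENNReal.ofReal (1 - lam k ^ (P.W k + 2 + 2 * P.N k) +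
      ((2 * (P.rho k) + 1 : ℕ) : ℝ) ^ d * lam k ^ P.D k) := by
  set g := P.W k + 2 + 2 * P.N k with hg
  have hrho : P.rho k = P.D k + g := by unfold Par.rho; omega
  let δ : V d → (V d → unitInterval) → ℕ := fun v U => geo (lam k) (P.D k) (U v)
  have hgm : Measurable (geo (lam k) (P.D k)) := geo_meas (h0 k) (h1 k) _
  have hm : ∀ v, Measurable (δ v) := fun v => hgm.comp (measurable_pi_apply v)
  have hi : iIndepFun δ (lawV d) := by
    have := iIndepFun_infinitePi (P := fun _ : V d => (volume : Measure unitInterval))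
      (X := fun _ : V d => geo (lam k) (P.D k)) (fun _ => hgm)
    exact this
  have hlaw : ∀ v, (lawV d).map (δ v) = (volume : Measure unitInterval).map
      (geo (lam k) (P.D k)) := by
    intro v
    have h2 : δ v = geo (lam k) (P.D k) ∘ (fun U : V d → unitInterval => U v) := rfl
    rw [h2, ← Measure.map_map hgm (measurable_pi_apply v)]
    congr 1
    exact Measure.infinitePi_map_eval (fun _ : V d => (volume : Measure unitInterval)) v
  have hw := win_prob (P := lawV d) hm hi (lam := ENNReal.ofReal (lam k)) (D := P.D k)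
    (fun v ω => geo_le _ _ _) (by
      rw [← ENNReal.ofReal_one]; exact ENNReal.ofReal_le_ofReal (h1 k).le)
    (fun v => by rw [hlaw v]; exact geo_isGeo (h0 k) (h1 k) _) g (by omega)
  have hW := win_meas hm (g : ℤ) (0 : V d)
  have hcompl : Bad P lam k = {ω | ∃ v, Win (fun v => δ v ω) (g : ℤ) 0 v}ᶜ := rfl
  rw [hcompl, prob_compl_eq_one_sub hW, tsub_le_iff_left]
  have e1 : (ENNReal.ofReal (lam k)) ^ g = ENNReal.ofReal (lam k ^ g) :=
    (ENNReal.ofReal_pow (h0 k).le _).symm
  have e2 : ((2 * (P.D k + g) + 1 : ℕ) : ℝ≥0∞) ^ d * ENNReal.ofReal (lam k) ^ P.D k =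
      ENNReal.ofReal (((2 * (P.rho k) + 1 : ℕ) : ℝ) ^ d * lam k ^ P.D k) := by
    rw [ENNReal.ofReal_mul (by positivity), ENNReal.ofReal_pow (by positivity),
      ENNReal.ofReal_pow (h0 k).le, hrho, ENNReal.ofReal_natCast]
  rw [e1, e2] at hw
  have e3 : (1 : ℝ≥0∞) = ENNReal.ofReal (lam k ^ g) + ENNReal.ofReal (1 - lam k ^ g) := by
    rw [← ENNReal.ofReal_add (by positivity [h0 k]) (by
      have := pow_le_one₀ (h0 k).le (h1 k).le (n := g)
      linarith)]
    simp
  rw [ENNReal.ofReal_add (by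
      have := pow_le_one₀ (h0 k).le (h1 k).le (n := g)
      linarith) (by have := h0 k; positivity)]
  calc (1 : ℝ≥0∞) = ENNReal.ofReal (lam k ^ g) + ENNReal.ofReal (1 - lam k ^ g) := e3
    _ ≤ _ := by
      refine (add_le_add_left hw _).trans (le_of_eq ?_)
      ring

end Pool.Agent.H96C3
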