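import Pool.Agent.H96C3.Ex

/-!
The lower bound for the tail of the coding radius.
-/

set_option autoImplicit false

open MeasureTheory ProbabilityTheory
open scoped ENNReal

namespace Pool.Agent.H96C3

variable {d : ℕ} {S : Type*} [MeasurableSpace S] (μ : Measure S) [IsProbabilityMeasure μ]

theorem shift_zero {α : Type*} (ω : V d → α) : shift (0 : V d) ω = ω := by
  funext v
  unfold shift
  rw [add_zero]

/-- the probability that the color at the origin is not determined by `r` -/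
noncomputable def bet (F : (V d → S) → Fin 3) (s : S) (r : ℕ) : ℝ :=
  ex μ fun ω => F (trunc s r ω) = F ω

theorem bet_nonneg (F : (V d → S) → Fin 3) (s : S) (r : ℕ) : 0 ≤ bet μ F s r := ex_nonneg _ _

theorem good_meas {F : (V d → S) → Fin 3} (hF : Measurable F) (s : S) (r : ℕ) :
    MeasurableSet {ω : V d → S | F (trunc s r ω) = F ω} :=
  measurableSet_eq_fun (hF.comp (trunc_meas s r)) hF

theorem one_site {F : (V d → S) → Fin 3} (hF : Measurable F) (s : S) (r : ℕ) (x : V d) :
    ex μ (fun ω => Yr F s r ω x = F (shift x ω)) = bet μ F s r :=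
  ex_shift μ (good_meas hF s r) x

theorem side {F : (V d → S) → Fin 3} (hF : Measurable F) (s : S) (r : ℕ) (x : V d) (i : Fin d)
    (n : ℕ) : ex μ (fun ω => ∀ j : ℕ, j ≤ n → Yr F s r ω (x + Pi.single i (j : ℤ)) =
      F (shift (x + Pi.single i (j : ℤ)) ω)) ≤ (n + 1) * bet μ F s r := by
  induction n with
  | zero =>
    rw [Nat.cast_zero, zero_add, one_mul, ← one_site μ hF s r (x + Pi.single i ((0 : ℕ) : ℤ))]
    apply ex_of
    intro ω h j hj
    obtain rfl : j = 0 := by omega
    exact h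
  | succ n ih =>
    have h1 := one_site μ hF s r (x + Pi.single i ((n + 1 : ℕ) : ℤ))
    have h2 : (((n + 1 : ℕ) : ℝ) + 1) * bet μ F s r = (n + 1) * bet μ F s r + bet μ F s r := by
      push_cast; ring
    rw [h2]
    refine (ex_two μ ?_).trans (add_le_add ih h1.le)
    intro ω hp hq j hj
    rcases Nat.le_succ_iff.1 hj with h | h
    · exact hp j h
    · subst h; exact hq

theorem hs_congr {Y Y' : V d → Fin 3} {x : V d} {i : Fin d} {n : ℕ}
    (h : ∀ j : ℕ, j ≤ n → Y (x + Pi.single i (j : ℤ)) = Y' (x + Pi.single i (j : ℤ))) :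
    hs Y x i n = hs Y' x i n := by
  unfold hs
  apply Finset.sum_congr rfl
  intro j hj
  rw [Finset.mem_range] at hj
  have h1 := h j (by omega)
  have h2 := h (j + 1) (by omega)
  push_cast at h2
  rw [h1, h2]

theorem rect_ex {F : (V d → S) → Fin 3} (hF : Measurable F) (s : S) (r : ℕ)
    (hprop : ∀ᵐ ω ∂(law d μ), Prop3 fun v => F (shift v ω)) (i0 i1 : Fin d) (n : ℕ) :
    ex μ (fun ω => hs (Yr F s r ω) 0 i0 n + hs (Yr F s r ω) (0 + Pi.single i0 (n : ℤ)) i1 n =
      hs (Yr F s r ω) 0 i1 n + hs (Yr F s r ω) (0 + Pi.single i1 (n : ℤ)) i0 n) ≤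
      4 * (n + 1) * bet μ F s r := by
  have h1 := side μ hF s r 0 i0 n
  have h2 := side μ hF s r (0 + Pi.single i0 (n : ℤ)) i1 n
  have h3 := side μ hF s r 0 i1 n
  have h4 := side μ hF s r (0 + Pi.single i1 (n : ℤ)) i0 n
  have h5 := ex_ae μ hprop
  have h6 : 4 * ((n : ℝ) + 1) * bet μ F s r = (((n + 1) * bet μ F s r + (n + 1) * bet μ F s r) +
      ((n + 1) * bet μ F s r + (n + 1) * bet μ F s r)) + 0 := by ring
  rw [h6]
  refine (ex_two μ ?_).trans (add_le_add ((ex_two μ (fun ω hp hq => And.intro hp hq)).trans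
    (add_le_add ((ex_two μ (fun ω hp hq => And.intro hp hq)).trans (add_le_add h1 h2))
    ((ex_two μ (fun ω hp hq => And.intro hp hq)).trans (add_le_add h3 h4)))) h5.le)
  rintro ω ⟨⟨a1, a2⟩, ⟨a3, a4⟩⟩ hq
  have e1 := hs_congr (Y' := fun v => F (shift v ω)) a1
  have e2 := hs_congr (Y' := fun v => F (shift v ω)) a2
  have e3 := hs_congr (Y' := fun v => F (shift v ω)) a3
  have e4 := hs_congr (Y' := fun v => F (shift v ω)) a4
  rw [e1, e2, e3, e4]
  exact hs_rect hq 0 i0 i1 n n

theorem freeze_ex {F : (V d → S) → Fin 3} (hF : Measurable F) (s : S) {r : ℕ}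
    (hprop : ∀ᵐ ω ∂(law d μ), Prop3 fun v => F (shift v ω)) {i0 i1 : Fin d} (hi : i0 ≠ i1) {n : ℕ}
    (hn : 2 * r < n) : ∃ U w : (V d → S) → ℤ, Measurable U ∧ Measurable w ∧
      DependsOn U (slab i0 (-r) r) ∧ DependsOn w (slab i0 (-r) r) ∧
      ex μ (fun ω => hs (Yr F s r ω) 0 i0 n = U ω + w (shift (Pi.single i0 (n : ℤ)) ω)) ≤
        4 * (n + 1) * bet μ F s r := by
  set E : Set (V d → S) := {ω | ¬ (hs (Yr F s r ω) 0 i0 n +
    hs (Yr F s r ω) (0 + Pi.single i0 (n : ℤ)) i1 n =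
      hs (Yr F s r ω) 0 i1 n + hs (Yr F s r ω) (0 + Pi.single i1 (n : ℤ)) i0 n)} with hEdef
  have hE : MeasurableSet E :=
    (measurableSet_eq_fun ((hs_meas hF s r _ _ _).add (hs_meas hF s r _ _ _))
      ((hs_meas hF s r _ _ _).add (hs_meas hF s r _ _ _))).compl
  set A : Set (V d) := {u | u i1 ≤ r} with hA
  obtain ⟨ω', hω'⟩ := exists_freeze μ A hE
  set m : (V d → S) → (V d → S) := fun ω => mix A (ω, ω') with hm
  have hmm : Measurable m := (mix_meas A).comp (measurable_id.prodMk measurable_const)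
  have hm_dep : ∀ T : Set (V d), ∀ ω1 ω2 : V d → S, (∀ v ∈ T, ω1 v = ω2 v) →
      ∀ v ∈ T, m ω1 v = m ω2 v := by
    intro T ω1 ω2 h v hv
    by_cases hvA : v ∈ A
    · rw [hm]
      simp only
      rw [mix_mem _ hvA, mix_mem _ hvA]
      exact h v hv
    · rw [hm]
      simp only
      rw [mix_notMem _ hvA, mix_notMem _ hvA]
  have htop : ∀ ω, hs (Yr F s r (m ω)) (0 + Pi.single i1 (n : ℤ)) i0 n =
      hs (Yr F s r ω') (0 + Pi.single i1 (n : ℤ)) i0 n := by
    intro ω
    have := hs_dep F s r (0 + Pi.single i1 (n : ℤ)) i0 n {u | (n : ℤ) - r ≤ u i1} (by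
      intro j _ _ u hu
      have := (coord_of_nrm hu i1).1
      simpa [hi.symm] using this)
    apply this
    intro v hv
    have hv' : (n : ℤ) - r ≤ v i1 := hv
    exact mix_notMem _ (by rw [hA]; intro hc; have hc' : v i1 ≤ r := hc; omega)
  have hbot : ∀ ω, hs (Yr F s r (m ω)) 0 i0 n = hs (Yr F s r ω) 0 i0 n := by
    intro ω
    have := hs_dep F s r 0 i0 n A (by
      intro j _ _ u hu
      have := (coord_of_nrm hu i1).2
      simp [hi.symm] at this
      exact this)
    apply this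
    intro v hv
    exact mix_mem _ hv
  have hD1 := hs_dep F s r 0 i1 n (slab i0 (-r) r) (by
      intro j _ _ u hu
      have h1 := (coord_of_nrm hu i0).1
      have h2 := (coord_of_nrm hu i0).2
      simp [hi] at h1 h2
      exact ⟨by linarith, h2⟩)
  have hD2 := hs_dep F s r (0 + Pi.single i0 (n : ℤ)) i1 n (slab i0 (n - r) (n + r)) (by
      intro j _ _ u hu
      have h1 := (coord_of_nrm hu i0).1
      have h2 := (coord_of_nrm hu i0).2
      simp [hi] at h1 h2
      exact ⟨by linarith, h2⟩)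
  set W : (V d → S) → ℤ := fun ω => - hs (Yr F s r (m ω)) (0 + Pi.single i0 (n : ℤ)) i1 n with hW
  have hWdep : DependsOn W (slab i0 (n - r) (n + r)) := by
    intro ω1 ω2 h
    have := hD2 (hm_dep _ _ _ h)
    simp only at this
    simp only [hW, this]
  refine ⟨fun ω => hs (Yr F s r ω') (0 + Pi.single i1 (n : ℤ)) i0 n + hs (Yr F s r (m ω)) 0 i1 n,
    fun ω => W (shift (Pi.single i0 (-(n : ℤ))) ω), ?_, ?_, ?_, ?_, ?_⟩
  · exact measurable_const.add ((hs_meas hF s r _ _ _).comp hmm)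
  · exact (((hs_meas hF s r _ _ _).comp hmm).neg).comp (shift_meas _)
  · intro ω1 ω2 h
    have := hD1 (hm_dep _ _ _ h)
    simp only at this
    simp only [this]
  · have := dep_shift hWdep (-(n : ℤ))
    refine dep_mono this ?_
    intro u hu
    obtain ⟨h1, h2⟩ := hu
    exact ⟨by linarith, by linarith⟩
  · refine le_trans ?_ (rect_ex μ hF s r hprop i0 i1 n)
    have h0 : law d μ {ω | m ω ∈ E} ≤ law d μ E := hω'
    have h1 : (law d μ).real {ω | m ω ∈ E} ≤ (law d μ).real E :=
      ENNReal.toReal_mono (measure_ne_top _ _) h0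
    refine le_trans ?_ h1
    unfold ex
    refine measureReal_mono (fun ω hω hc => ?_) (measure_ne_top _ _)
    apply hω
    rw [hbot, htop] at hc
    have e1 : -(n : ℤ) + n = 0 := by ring
    simp only [shift_single_add, e1, Pi.single_zero, shift_zero]
    simp only [hW]
    linarith

theorem two_ex {F : (V d → S) → Fin 3} (hF : Measurable F) (s : S) {r : ℕ} {i0 : Fin d} {n : ℕ}
    {U w : (V d → S) → ℤ} (hU : Measurable U) (hw : Measurable w)
    (hUd : DependsOn U (slab i0 (-r) r)) (hwd : DependsOn w (slab i0 (-r) r)) {ε : ℝ}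
    (hε : ex μ (fun ω => hs (Yr F s r ω) 0 i0 n = U ω + w (shift (Pi.single i0 (n : ℤ)) ω)) ≤ ε)
    {M : ℕ} (hM : M + 2 * r < n) : ∃ k : ℤ,
      ex μ (fun ω => hs (Yr F s r ω) 0 i0 M - w (shift (Pi.single i0 (M : ℤ)) ω) + w ω = k) ≤
        2 * ε := by
  set C : (V d → S) → ℤ := fun ω =>
    hs (Yr F s r ω) 0 i0 M - w (shift (Pi.single i0 (M : ℤ)) ω) + w ω with hC
  set B : (V d → S) → ℤ := fun ω =>
    hs (Yr F s r ω) 0 i0 M + U (shift (Pi.single i0 (M : ℤ)) ω) - U ω with hB
  have hCm : Measurable C :=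
    ((hs_meas hF s r _ _ _).sub (hw.comp (shift_meas _))).add hw
  have hBm : Measurable B :=
    ((hs_meas hF s r _ _ _).add (hU.comp (shift_meas _))).sub hU
  have hh : DependsOn (fun ω => hs (Yr F s r ω) 0 i0 M) (slab i0 (-r) (M + r)) := by
    apply hs_dep
    intro j hj1 hj2 u hu
    have h1 := (coord_of_nrm hu i0).1
    have h2 := (coord_of_nrm hu i0).2
    simp at h1 h2
    exact ⟨by linarith, by linarith⟩
  have hCd : DependsOn C (slab i0 (-r) (M + r)) := by
    intro ω1 ω2 h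
    have e1 := hh h
    have e2 := dep_mono (dep_shift hwd (M : ℤ)) (B := slab i0 (-r) (M + r))
      (fun u hu => ⟨by have := hu.1; omega, by have := hu.2; omega⟩) h
    have e3 := dep_mono hwd (B := slab i0 (-r) (M + r))
      (fun u hu => ⟨hu.1, by have := hu.2; omega⟩) h
    simp only at e1 e2
    simp only [hC, e1, e2, e3]
  have hBd : DependsOn B (slab i0 (-r) (M + r)) := by
    intro ω1 ω2 h
    have e1 := hh h
    have e2 := dep_mono (dep_shift hUd (M : ℤ)) (B := slab i0 (-r) (M + r))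
      (fun u hu => ⟨by have := hu.1; omega, by have := hu.2; omega⟩) h
    have e3 := dep_mono hUd (B := slab i0 (-r) (M + r))
      (fun u hu => ⟨hu.1, by have := hu.2; omega⟩) h
    simp only at e1 e2
    simp only [hB, e1, e2, e3]
  have hCd' := dep_shift hCd (n : ℤ)
  have hdisj : Disjoint (slab (d := d) i0 (-r + n) (M + r + n)) (slab i0 (-r) (M + r)) :=
    (slab_disj i0 (by omega)).symm
  obtain ⟨k, hk⟩ := ex_const μ hCd' hBd hdisj (hCm.comp (shift_meas _)) hBm
  refine ⟨k, ?_⟩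
  have hk' : ex μ (fun ω => C (shift (Pi.single i0 (n : ℤ)) ω) = k) = ex μ (fun ω => C ω = k) :=
    ex_shift μ (p := fun ω => C ω = k) (measurableSet_eq_fun hCm measurable_const) _
  rw [← hk']
  refine hk.trans ?_
  have hpm : MeasurableSet {ω : V d → S | hs (Yr F s r ω) 0 i0 n =
      U ω + w (shift (Pi.single i0 (n : ℤ)) ω)} :=
    measurableSet_eq_fun (hs_meas hF s r _ _ _) (hU.add (hw.comp (shift_meas _)))
  have h2 := ex_shift μ hpm (Pi.single i0 (M : ℤ))
  have h3 : 2 * ε = ε + ε := by ring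
  rw [h3]
  refine (ex_two μ ?_).trans (add_le_add hε (h2.le.trans hε))
  intro ω hp hq
  simp only [hs_shift, shift_single_add] at hq
  have a1 := hs_add (Yr F s r ω) 0 i0 M n
  have a2 := hs_add (Yr F s r ω) 0 i0 n M
  have e1 : M + n = n + M := add_comm _ _
  rw [e1] at a1
  simp only [hC, hB, hs_shift, shift_single_add]
  have e2 : (M : ℤ) + n = n + M := add_comm _ _
  rw [e2]
  linarith

end Pool.Agent.H96C3
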