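import Pool.Agent.H96C3.Upper

/-!
The lower bound for the tail of the coding radius, continued.
-/

set_option autoImplicit false

open MeasureTheory ProbabilityTheory
open scoped ENNReal

namespace Pool.Agent.H96C3

variable {d : ℕ}

theorem per_top {Y : V d → Fin 3} {x : V d} {i : Fin d} {r : ℕ}
    (h : hs Y x i (3 * r) = ((3 * r : ℕ) : ℤ)) :
    Y (x + Pi.single i ((3 * r : ℕ) : ℤ)) = Y x := by
  have h1 := hs_eq_top h
  have key : ∀ m : ℕ, m ≤ r → Y (x + Pi.single i ((3 * m : ℕ) : ℤ)) = Y x := by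
    intro m
    induction m with
    | zero => intro _; simp
    | succ m ih =>
      intro hm
      have a0 := ih (by omega)
      have a1 := st_one _ _ (h1 (3 * m) (by omega))
      have a2 := st_one _ _ (h1 (3 * m + 1) (by omega))
      have a3 := st_one _ _ (h1 (3 * m + 2) (by omega))
      have e1 : ((3 * m + 1 : ℕ) : ℤ) = ((3 * m : ℕ) : ℤ) + 1 := by push_cast; ring
      have e2 : ((3 * m + 2 : ℕ) : ℤ) = ((3 * m + 1 : ℕ) : ℤ) + 1 := by push_cast; ring
      have e3 : ((3 * (m + 1) : ℕ) : ℤ) = ((3 * m + 2 : ℕ) : ℤ) + 1 := by push_cast; ring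
      rw [e3, a3, e2, a2, e1, a1, a0]
      have : ∀ a : Fin 3, a + 1 + 1 + 1 = a := by decide
      exact this _
  exact key r le_rfl

theorem per_bot {Y : V d → Fin 3} {x : V d} {i : Fin d} {r : ℕ}
    (h : hs Y x i (3 * r) = -((3 * r : ℕ) : ℤ)) :
    Y (x + Pi.single i ((3 * r : ℕ) : ℤ)) = Y x := by
  have h1 := hs_eq_bot h
  have key : ∀ m : ℕ, m ≤ r → Y (x + Pi.single i ((3 * m : ℕ) : ℤ)) = Y x := by
    intro m
    induction m with
    | zero => intro _; simp
    | succ m ih =>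
      intro hm
      have a0 := ih (by omega)
      have a1 := st_neg_one _ _ (h1 (3 * m) (by omega))
      have a2 := st_neg_one _ _ (h1 (3 * m + 1) (by omega))
      have a3 := st_neg_one _ _ (h1 (3 * m + 2) (by omega))
      have e1 : ((3 * m + 1 : ℕ) : ℤ) = ((3 * m : ℕ) : ℤ) + 1 := by push_cast; ring
      have e2 : ((3 * m + 2 : ℕ) : ℤ) = ((3 * m + 1 : ℕ) : ℤ) + 1 := by push_cast; ring
      have e3 : ((3 * (m + 1) : ℕ) : ℤ) = ((3 * m + 2 : ℕ) : ℤ) + 1 := by push_cast; ring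
      rw [e3, a3, e2, a2, e1, a1, a0]
      have : ∀ a : Fin 3, a - 1 - 1 - 1 = a := by decide
      exact this _
  exact key r le_rfl

variable {S : Type*} [MeasurableSpace S] (μ : Measure S) [IsProbabilityMeasure μ]

theorem upper_main {i0 i1 : Fin d} (hi : i0 ≠ i1) {F : (V d → S) → Fin 3} (hF : Measurable F)
    (s : S) (hprop : ∀ᵐ ω ∂(law d μ), Prop3 fun v => F (shift v ω)) {r : ℕ} (hr : 1 ≤ r) :
    1 ≤ 364 * r * bet μ F s r := by
  by_contra hcon
  push Not at hcon
  set β := bet μ F s r with hβ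
  have hβ0 : 0 ≤ β := bet_nonneg μ F s r
  have hr' : (1 : ℝ) ≤ r := by exact_mod_cast hr
  obtain ⟨ε, hε⟩ : ∃ ε : ℝ, ε = 4 * (((6 * r : ℕ) : ℝ) + 1) * β := ⟨_, rfl⟩
  have hε' : ε = 24 * r * β + 4 * β := by rw [hε]; push_cast; ring
  have hrβ : β ≤ r * β := by nlinarith
  have hε0 : 0 ≤ ε := by rw [hε']; positivity
  have hε1 : 13 * ε < 1 := by rw [hε']; nlinarith
  obtain ⟨U, w, hU, hw, hUd, hwd, hfr⟩ :=
    freeze_ex μ hF s hprop hi (n := 6 * r) (r := r) (by omega)
  rw [← hβ, ← hε] at hfr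
  have hk0 : ∀ M : ℕ, M ≤ 3 * r → ∃ k : ℤ, ex μ (fun ω => hs (Yr F s r ω) 0 i0 M -
      w (shift (Pi.single i0 (M : ℤ)) ω) + w ω = k) ≤ 2 * ε :=
    fun M hM => two_ex μ hF s hU hw hUd hwd hfr (by omega)
  choose! k hk using hk0
  have h0 := ex_ae μ hprop
  -- parity
  have hpar : ∀ M : ℕ, M ≤ 3 * r →
      ex μ (fun ω => hs (Yr F s r ω) 0 i0 M % 2 = (M : ℤ) % 2) ≤ ε := by
    intro M hM
    have h1 := side μ hF s r 0 i0 M
    have hM' : (M : ℝ) ≤ 3 * r := by exact_mod_cast hM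
    have h2 : ((M : ℝ) + 1) * β + 0 ≤ ε := by rw [hε']; nlinarith
    refine le_trans ((ex_two μ ?_).trans (add_le_add h1 h0.le)) h2
    intro ω hp hq
    apply hs_parity
    intro j hj
    have a1 := hp j (by omega)
    have a2 := hp (j + 1) (by omega)
    push_cast at a2
    rw [a1, a2]
    exact hq.ne 0 i0 j
  have hsl : ∀ a b : ℤ, a ≤ b → DependsOn w (slab i0 (-r) r) := fun _ _ _ => hwd
  have h3 := hk (3 * r) le_rfl
  have hp3 := hpar (3 * r) le_rfl
  have hwT := dep_shift hwd (((3 * r : ℕ)) : ℤ)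
  have hdis : Disjoint (slab (d := d) i0 (-(r : ℤ)) r)
      (slab i0 (-(r : ℤ) + ((3 * r : ℕ) : ℤ)) (r + ((3 * r : ℕ) : ℤ))) :=
    slab_disj i0 (by push_cast; omega)
  obtain ⟨κ, hκ⟩ : ∃ κ : ℤ, ex μ (fun ω => w ω % 2 = κ) ≤ 3 * ε := by
    have hfd : DependsOn (fun ω => w (shift (Pi.single i0 ((3 * r : ℕ) : ℤ)) ω) % 2)
        (slab i0 (-(r : ℤ) + ((3 * r : ℕ) : ℤ)) (r + ((3 * r : ℕ) : ℤ))) := by
      intro ω1 ω2 h
      have := hwT h
      simp only at this
      simp only [this]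
    have hgd : DependsOn (fun ω => (w ω - k (3 * r) + ((3 * r : ℕ) : ℤ)) % 2)
        (slab i0 (-(r : ℤ)) r) := by
      intro ω1 ω2 h
      simp only [hwd h]
    have hm2 : Measurable fun z : ℤ => z % 2 := .of_discrete
    obtain ⟨κ, hκ⟩ := ex_const μ hfd hgd hdis.symm (hm2.comp (hw.comp (shift_meas _)))
      (hm2.comp ((hw.sub measurable_const).add measurable_const))
    refine ⟨κ, ?_⟩
    have hs1 : ex μ (fun ω => w (shift (Pi.single i0 ((3 * r : ℕ) : ℤ)) ω) % 2 = κ) =
        ex μ (fun ω => w ω % 2 = κ) :=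
      ex_shift μ (p := fun ω => w ω % 2 = κ)
        (measurableSet_eq_fun (hm2.comp hw) measurable_const) _
    rw [← hs1]
    refine hκ.trans ?_
    have h3ε : 3 * ε = 2 * ε + ε := by ring
    rw [h3ε]
    refine (ex_two μ ?_).trans (add_le_add h3 hp3)
    intro ω hp hq
    omega
  have hm1 : Measurable fun z : ℤ => z % 2 := .of_discrete
  have hκs : ∀ b : V d, ex μ (fun ω => w (shift b ω) % 2 = κ) ≤ 3 * ε := fun b =>
    (ex_shift μ (p := fun ω => w ω % 2 = κ)
        (measurableSet_eq_fun (hm1.comp hw) measurable_const) b).le.trans hκ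
  have hodd : k 1 % 2 = 1 := by
    by_contra hc
    have hf : 1 ≤ ex μ (fun _ : V d → S => False) := ex_false μ fun _ h => h
    have a1 := (ex_two μ (fun ω hp hq => And.intro hp hq)).trans
      (add_le_add (hk 1 (by omega)) (hpar 1 (by omega)))
    have a2 := (ex_two μ (fun ω hp hq => And.intro hp hq)).trans
      (add_le_add hκ (hκs (Pi.single i0 ((1 : ℕ) : ℤ))))
    have a3 := hf.trans ((ex_two μ (fun ω hp hq => by
      obtain ⟨b1, b2⟩ := hp
      obtain ⟨b3, b4⟩ := hq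
      push_cast at b2
      omega)).trans (add_le_add a1 a2))
    linarith
  have hadd : ∀ M : ℕ, M + 1 ≤ 3 * r → k (M + 1) = k M + k 1 := by
    intro M hM
    by_contra hc
    have hf : 1 ≤ ex μ (fun _ : V d → S => False) := ex_false μ fun _ h => h
    have a1 := (ex_two μ (fun ω hp hq => And.intro hp hq)).trans
      (add_le_add (hk (M + 1) hM) (hk M (by omega)))
    have hC1m : MeasurableSet {ω : V d → S | hs (Yr F s r ω) 0 i0 1 -
      w (shift (Pi.single i0 ((1 : ℕ) : ℤ)) ω) + w ω = k 1} :=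
      measurableSet_eq_fun (((hs_meas hF s r _ _ _).sub (hw.comp (shift_meas _))).add hw)
        measurable_const
    have a2 := (ex_shift μ hC1m (Pi.single i0 (M : ℤ))).le.trans (hk 1 (by omega))
    have a3 := hf.trans ((ex_two μ (fun ω hp hq => by
      obtain ⟨b1, b2⟩ := hp
      rw [hs_shift, shift_single_add] at hq
      rw [hs_add (Yr F s r ω) 0 i0 M 1] at b1
      have e1 : ((1 : ℕ) : ℤ) + M = ((M + 1 : ℕ) : ℤ) := by push_cast; ring
      rw [e1] at hq
      apply hc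
      linarith)).trans (add_le_add a1 a2))
    linarith
  have hmul : ∀ M : ℕ, 1 ≤ M → M ≤ 3 * r → k M = M * k 1 := by
    intro M h1 
    induction M, h1 using Nat.le_induction with
    | base => intro _; simp
    | succ M hM ih =>
      intro hM'
      rw [hadd M hM', ih (by omega)]
      push_cast
      ring
  have hk3 := hmul (3 * r) (by omega) le_rfl
  have hswap : ex μ (fun ω => w ω ≤ w (shift (Pi.single i0 ((3 * r : ℕ) : ℤ)) ω)) =
      ex μ (fun ω => w (shift (Pi.single i0 ((3 * r : ℕ) : ℤ)) ω) ≤ w ω) :=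
    ex_swap μ hwd hwT hdis hw (fun a b => a ≤ b)
  -- the colors at distance `3 r`
  have hper : ex μ (fun ω => Yr F s r ω 0 = Yr F s r ω (0 + Pi.single i0 ((3 * r : ℕ) : ℤ))) ≤
      6 * ε := by
    have h6 : 6 * ε = 2 * ε + (2 * ε + 2 * ε) := by ring
    rcases le_or_gt 1 (k 1) with hk1 | hk1
    · have hk3' : ((3 * r : ℕ) : ℤ) ≤ k (3 * r) := by rw [hk3]; nlinarith
      have a1 : ex μ (fun ω => w (shift (Pi.single i0 ((3 * r : ℕ) : ℤ)) ω) ≤ w ω) ≤ 2 * ε := by
        refine (ex_of μ ?_).trans h3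
        intro ω hp
        have := hs_le (Yr F s r ω) 0 i0 (3 * r)
        linarith
      have a2 := hswap.le.trans a1
      have a3 := (ex_two μ (fun ω hp hq => And.intro hp hq)).trans (add_le_add a1 a2)
      rw [h6]
      refine (ex_two μ ?_).trans (add_le_add h3 a3)
      rintro ω hp ⟨hq1, hq2⟩
      have b1 := hs_le (Yr F s r ω) 0 i0 (3 * r)
      have b2 : hs (Yr F s r ω) 0 i0 (3 * r) = ((3 * r : ℕ) : ℤ) := by linarith
      exact (per_top b2).symm
    · have hk1' : k 1 ≤ -1 := by omega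
      have hk3' : k (3 * r) ≤ -((3 * r : ℕ) : ℤ) := by rw [hk3]; nlinarith
      have a1 : ex μ (fun ω => w ω ≤ w (shift (Pi.single i0 ((3 * r : ℕ) : ℤ)) ω)) ≤ 2 * ε := by
        refine (ex_of μ ?_).trans h3
        intro ω hp
        have := hs_ge (Yr F s r ω) 0 i0 (3 * r)
        linarith
      have a2 := hswap.ge.trans a1
      have a3 := (ex_two μ (fun ω hp hq => And.intro hp hq)).trans (add_le_add a1 a2)
      rw [h6]
      refine (ex_two μ ?_).trans (add_le_add h3 a3)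
      rintro ω hp ⟨hq1, hq2⟩
      have b1 := hs_ge (Yr F s r ω) 0 i0 (3 * r)
      have b2 : hs (Yr F s r ω) 0 i0 (3 * r) = -((3 * r : ℕ) : ℤ) := by linarith
      exact (per_bot b2).symm
  have hd0 : DependsOn (fun ω => Yr F s r ω 0) (slab i0 (-(r : ℤ)) r) := by
    refine dep_mono (yr_dep F s r 0) ?_
    intro u hu
    have h1 := (coord_of_nrm hu i0).1
    have h2 := (coord_of_nrm hu i0).2
    simp at h1 h2
    exact ⟨by linarith, h2⟩
  have hd3 : DependsOn (fun ω => Yr F s r ω (0 + Pi.single i0 ((3 * r : ℕ) : ℤ)))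
      (slab i0 (-(r : ℤ) + ((3 * r : ℕ) : ℤ)) (r + ((3 * r : ℕ) : ℤ))) := by
    refine dep_mono (yr_dep F s r _) ?_
    intro u hu
    have h1 := (coord_of_nrm hu i0).1
    have h2 := (coord_of_nrm hu i0).2
    simp at h1 h2
    exact ⟨by push_cast; linarith, by push_cast; linarith⟩
  obtain ⟨c, hc⟩ := ex_const μ hd0 hd3 hdis (yr_meas hF s r _) (yr_meas hF s r _)
  have hc' := hc.trans hper
  have hcs : ex μ (fun ω => Yr F s r ω (0 + Pi.single i0 1) = c) ≤ 6 * ε := by
    have h1 := ex_shift μ (p := fun ω => Yr F s r ω 0 = c)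
      (measurableSet_eq_fun (yr_meas hF s r _) measurable_const) (Pi.single i0 1)
    simp only [yr_shift] at h1
    exact h1.le.trans hc'
  have hf : 1 ≤ ex μ (fun _ : V d → S => False) := ex_false μ fun _ h => h
  have a1 := (ex_two μ (fun ω hp hq => And.intro hp hq)).trans (add_le_add hc' hcs)
  have a2 := (ex_two μ (fun ω hp hq => And.intro hp hq)).trans
    (add_le_add (one_site μ hF s r 0).le (one_site μ hF s r (0 + Pi.single i0 1)).le)
  have a3 := (ex_two μ (fun ω hp hq => And.intro hp hq)).trans (add_le_add a2 h0.le)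
  have a4 := hf.trans ((ex_two μ (fun ω hp hq => by
      obtain ⟨b1, b2⟩ := hp
      obtain ⟨⟨b3, b4⟩, b5⟩ := hq
      have b6 := b5.ne 0 i0 0
      simp only [Pi.single_zero, zero_add, add_zero] at b1 b2 b3 b4 b6
      apply b6
      rw [← b3, ← b4, b1, b2])).trans (add_le_add a1 a3))
  nlinarith

end Pool.Agent.H96C3
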