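import Pool.Agent.H96C3.Upper2

/-!
The coding radius has an infinite mean.
-/

set_option autoImplicit false

open MeasureTheory ProbabilityTheory Filter
open scoped ENNReal

namespace Pool.Agent.H96C3

variable {d : ℕ} {S : Type*} [MeasurableSpace S] (μ : Measure S) [IsProbabilityMeasure μ]

/-- the event that the color at the origin is not determined by the distance `r` -/
def bev (Φ : (V d → S) → V d → Fin 3) (s : S) (r : ℕ) : Set (V d → S) :=
  {ω | ¬ Φ (trunc s r ω) 0 = Φ ω 0}

theorem bev_sub (Φ : (V d → S) → V d → Fin 3) (s : S) (r : ℕ) (ω : V d → S)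
    (h : ω ∈ bev Φ s r) : (r : ℕ∞) < radius Φ ω := by
  by_contra hc
  push Not at hc
  apply h
  apply radius_spec hc
  intro v hv
  exact if_pos hv

theorem bev_prob {μ : Measure S} [IsProbabilityMeasure μ] (hd : 2 ≤ d)
    {Φ : (V d → S) → V d → Fin 3} (h : IsWeakFactor μ Φ) (s : S) {r : ℕ} (hr : 1 ≤ r) :
    MeasurableSet (bev Φ s r) ∧ 1 / (364 * (r : ℝ)) ≤ (law d μ).real (bev Φ s r) := by
  have hF : Measurable fun ω : V d → S => Φ ω 0 := (measurable_pi_apply 0).comp h.meas
  refine ⟨(good_meas hF s r).compl, ?_⟩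
  have hprop : ∀ᵐ ω ∂(law d μ), Prop3 fun v => (fun ω : V d → S => Φ ω 0) (shift v ω) := by
    filter_upwards [h.proper, ae_all_iff.2 h.equi] with ω hω hω'
    intro u v huv
    have e1 : ∀ w : V d, Φ (shift w ω) 0 = Φ ω w := by
      intro w
      rw [hω' w]
      unfold shift
      rw [zero_add]
    simp only [e1]
    exact hω u v huv
  have hi : (⟨0, by omega⟩ : Fin d) ≠ ⟨1, by omega⟩ := by
    intro hc
    have := congrArg Fin.val hc
    simp at this
  have h1 := upper_main μ hi hF s hprop hr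
  have hr' : (0 : ℝ) < 364 * r := by
    have : (1 : ℝ) ≤ r := by exact_mod_cast hr
    linarith
  rw [div_le_iff₀ hr', mul_comm]
  exact h1

theorem radius_tail {μ : Measure S} [IsProbabilityMeasure μ] (hd : 2 ≤ d)
    {Φ : (V d → S) → V d → Fin 3} (h : IsWeakFactor μ Φ) {r : ℕ} (hr : 1 ≤ r) :
    ENNReal.ofReal (1 / (364 * (r : ℝ))) ≤ law d μ {ω | (r : ℕ∞) < radius Φ ω} := by
  haveI : Nonempty S := nonempty_of_isProbabilityMeasure μ
  obtain ⟨s⟩ := ‹Nonempty S›
  have h1 := (bev_prob hd h s hr).2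
  have h2 : ENNReal.ofReal (1 / (364 * (r : ℝ))) ≤ law d μ (bev Φ s r) := by
    rw [ENNReal.ofReal_le_iff_le_toReal (measure_ne_top _ _)]
    exact h1
  exact h2.trans (measure_mono (bev_sub Φ s r))

theorem card_le_radius (Φ : (V d → S) → V d → Fin 3) (s : S) (n : ℕ) (ω : V d → S)
    [DecidablePred fun i : ℕ => ω ∈ bev Φ s (i + 1)] :
    ((((Finset.range n).filter fun i => ω ∈ bev Φ s (i + 1)).card : ℕ) : ℕ∞) ≤ radius Φ ω := by
  rcases eq_or_ne (radius Φ ω) ⊤ with htop | htop
  · rw [htop]; exact le_top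
  · obtain ⟨R, hR⟩ := ENat.ne_top_iff_exists.1 htop
    rw [← hR]
    have : ((Finset.range n).filter fun i => ω ∈ bev Φ s (i + 1)) ⊆ Finset.range R := by
      intro i hi
      rw [Finset.mem_filter] at hi
      have h1 := bev_sub Φ s (i + 1) ω hi.2
      rw [← hR] at h1
      have h2 : i + 1 < R := by exact_mod_cast h1
      rw [Finset.mem_range]; omega
    have h3 := Finset.card_le_card this
    rw [Finset.card_range] at h3
    exact_mod_cast h3

theorem radius_infinite_mean {μ : Measure S} [IsProbabilityMeasure μ] (hd : 2 ≤ d)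
    {Φ : (V d → S) → V d → Fin 3} (h : IsWeakFactor μ Φ) {α : ℝ} (hα : 1 ≤ α) :
    ∫⁻ ω, (radius Φ ω : ℝ≥0∞) ^ α ∂(law d μ) = ⊤ := by
  classical
  haveI : Nonempty S := nonempty_of_isProbabilityMeasure μ
  obtain ⟨s⟩ := ‹Nonempty S›
  by_contra hne
  set I := ∫⁻ ω, (radius Φ ω : ℝ≥0∞) ^ α ∂(law d μ) with hI
  have key : ∀ n : ℕ, ∑ i ∈ Finset.range n, 1 / (364 * ((i : ℝ) + 1)) ≤ I.toReal := by
    intro n
    have h1 : ∑ i ∈ Finset.range n, law d μ (bev Φ s (i + 1)) ≤ I := by
      have h2 : ∀ i : ℕ, law d μ (bev Φ s (i + 1)) =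
          ∫⁻ ω, (bev Φ s (i + 1)).indicator 1 ω ∂(law d μ) := by
        intro i
        rw [lintegral_indicator_one (bev_prob hd h s (by omega)).1]
      rw [Finset.sum_congr rfl fun i _ => h2 i, ← lintegral_finsetSum _
        (fun i _ => measurable_one.indicator (bev_prob hd h s (by omega)).1)]
      apply lintegral_mono
      intro ω
      have h3 := card_le_radius Φ s n ω
      have h4 : ∑ i ∈ Finset.range n, (bev Φ s (i + 1)).indicator (1 : (V d → S) → ℝ≥0∞) ω =
          ((((Finset.range n).filter fun i => ω ∈ bev Φ s (i + 1)).card : ℕ) : ℝ≥0∞) := by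
        rw [Finset.card_filter]
        push_cast
        apply Finset.sum_congr rfl
        intro i _
        by_cases hi : ω ∈ bev Φ s (i + 1)
        · rw [Set.indicator_of_mem hi, if_pos hi]; rfl
        · rw [Set.indicator_of_notMem hi, if_neg hi]
      simp only
      rw [h4]
      set m := ((Finset.range n).filter fun i => ω ∈ bev Φ s (i + 1)).card
      have h5 : (m : ℝ≥0∞) ≤ (radius Φ ω : ℝ≥0∞) := by
        have := ENat.toENNReal_le.2 h3
        simpa using this
      rcases Nat.eq_zero_or_pos m with hm | hm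
      · rw [hm]; simp
      · have h6 : (1 : ℝ≥0∞) ≤ m := by exact_mod_cast hm
        calc (m : ℝ≥0∞) = (m : ℝ≥0∞) ^ (1 : ℝ) := (ENNReal.rpow_one _).symm
          _ ≤ (m : ℝ≥0∞) ^ α := ENNReal.rpow_le_rpow_of_exponent_le h6 hα
          _ ≤ _ := ENNReal.rpow_le_rpow h5 (by linarith)
    have h7 := ENNReal.toReal_mono hne h1
    rw [ENNReal.toReal_sum fun i _ => measure_ne_top _ _] at h7
    refine le_trans (Finset.sum_le_sum fun i _ => ?_) h7
    have := (bev_prob hd h s (r := i + 1) (by omega)).2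
    push_cast at this
    exact this
  have hdiv := Real.tendsto_sum_range_one_div_nat_succ_atTop
  obtain ⟨n, hn⟩ := (hdiv.eventually_gt_atTop (364 * I.toReal)).exists
  have h8 := key n
  have h9 : ∑ i ∈ Finset.range n, 1 / (364 * ((i : ℝ) + 1)) =
      1 / 364 * ∑ i ∈ Finset.range n, 1 / ((i : ℝ) + 1) := by
    rw [Finset.mul_sum]
    apply Finset.sum_congr rfl
    intro i _
    have : (0 : ℝ) < (i : ℝ) + 1 := by positivity
    field_simp
  rw [h9] at h8
  linarith

theorem no_moment {μ : Measure S} [IsProbabilityMeasure μ] (hd : 2 ≤ d)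
    {Φ : (V d → S) → V d → Fin 3} (h : IsWeakFactor μ Φ) {α : ℝ} (hα : 1 ≤ α) : ¬ HasMoment μ Φ α := by
  rintro ⟨g, _, hg1, hg2⟩
  have h1 := radius_infinite_mean hd h hα
  have h2 : ∫⁻ ω, (radius Φ ω : ℝ≥0∞) ^ α ∂(law d μ) ≤ ∫⁻ ω, g ω ^ α ∂(law d μ) := by
    apply lintegral_mono_ae
    filter_upwards [hg1] with ω hω
    exact ENNReal.rpow_le_rpow hω (by linarith)
  rw [h1] at h2
  exact absurd hg2 (not_lt.2 h2)

end Pool.Agent.H96C3
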